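import Pool.Agent.K7.H73.L3.G
import Pool.Agent.Y688.V1

/-!
# The product `C_{E/k}` of the refined conjecture for `y² + y = x³`
-/

set_option autoImplicit false
set_option linter.unusedSectionVars false

open NumberField IsDedekindDomain WeierstrassCurve WithZero
open scoped Classical

namespace Pool.Agent.K7.H73.L3

open Pool.Agent.Y682 (vv)
open Pool.Agent.Y696 (E0 E0_Δ E0_map E27)
open Pool.Agent.K7.H70.SM (NG)

section
variable {k : Type} [Field k] [NumberField k]

/-- the normalised absolute value of the completion -/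
noncomputable def nabs (v : HeightOneSpectrum (𝓞 k)) (x : v.adicCompletion k) : ℝ :=
  if x = 0 then 0 else (Ideal.absNorm v.asIdeal : ℝ) ^ WithZero.log (Valued.v x)

/-- a minimal equation over the completion (Mathlib's) -/
noncomputable abbrev mineq (W : WeierstrassCurve k) (v : HeightOneSpectrum (𝓞 k)) :
    WeierstrassCurve (v.adicCompletion k) :=
  (W.baseChange (v.adicCompletion k)).minimal (v.adicCompletionIntegers k)

/-- the Tamagawa number -/
noncomputable def cc (W : WeierstrassCurve k) (v : HeightOneSpectrum (𝓞 k)) : ℕ :=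
  (ns (vv v) (mineq W v)).index

/-- the correction of the differential -/
noncomputable def mf (W : WeierstrassCurve k) (v : HeightOneSpectrum (𝓞 k)) : ℝ :=
  nabs v ((mineq W v).Δ / (W.baseChange (v.adicCompletion k)).Δ) ^ (1 / 12 : ℝ)

/-- the product over all finite places -/
noncomputable def CE (W : WeierstrassCurve k) : ℝ :=
  ∏ᶠ v : HeightOneSpectrum (𝓞 k), (cc W v : ℝ) * mf W v

/-- the change of variables -/
noncomputable def Cv (W : WeierstrassCurve k) (v : HeightOneSpectrum (𝓞 k)) :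
    VariableChange (v.adicCompletion k) :=
  ((W.baseChange (v.adicCompletion k)).exists_isMinimal (v.adicCompletionIntegers k)).choose

lemma mineq_eq (W : WeierstrassCurve k) (v : HeightOneSpectrum (𝓞 k)) :
    mineq W v = Cv W v • W.baseChange (v.adicCompletion k) := rfl

lemma Cv_min (W : WeierstrassCurve k) (v : HeightOneSpectrum (𝓞 k)) :
    WeierstrassCurve.IsMinimal (v.adicCompletionIntegers k)
      (Cv W v • W.baseChange (v.adicCompletion k)) :=
  ((W.baseChange (v.adicCompletion k)).exists_isMinimal (v.adicCompletionIntegers k)).choose_spec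

lemma mf_eq {W : WeierstrassCurve k} (hD : W.Δ ≠ 0) (v : HeightOneSpectrum (𝓞 k)) :
    mf W v = (Ideal.absNorm v.asIdeal : ℝ) ^
      (-(WithZero.log (Valued.v ((Cv W v).u : v.adicCompletion k)))) := by
  have hD' : (W.baseChange (v.adicCompletion k)).Δ ≠ 0 := by
    have h1 : (W.baseChange (v.adicCompletion k)).Δ = algebraMap k (v.adicCompletion k) W.Δ :=
      WeierstrassCurve.map_Δ _ _
    rw [h1]
    exact (map_ne_zero_iff _ (algebraMap k (v.adicCompletion k)).injective).2 hD
  have hN : (0 : ℝ) < (Ideal.absNorm v.asIdeal : ℝ) := by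
    exact_mod_cast Nat.pos_of_ne_zero fun h => v.ne_bot (Ideal.absNorm_eq_zero_iff.1 h)
  have hu : Valued.v ((Cv W v).u : v.adicCompletion k) ≠ 0 :=
    (Valuation.ne_zero_iff _).2 (Cv W v).u.ne_zero
  have e : (mineq W v).Δ / (W.baseChange (v.adicCompletion k)).Δ =
      (((Cv W v).u : v.adicCompletion k)⁻¹) ^ 12 := by
    rw [mineq_eq, variableChange_Δ, Units.val_inv_eq_inv_val]
    field_simp
  unfold mf nabs
  rw [e, if_neg (pow_ne_zero 12 (inv_ne_zero (Cv W v).u.ne_zero)), map_pow, map_inv₀,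
    WithZero.log_pow, WithZero.log_inv, ← Real.rpow_intCast, ← Real.rpow_mul hN.le,
    ← Real.rpow_intCast]
  congr 1
  rw [nsmul_eq_mul]
  push_cast
  ring

lemma Δ_ne : (E27 k).Δ ≠ 0 := by
  have e : (E27 k).Δ = -27 := by
    simp [WeierstrassCurve.Δ, WeierstrassCurve.b₂, WeierstrassCurve.b₄, WeierstrassCurve.b₆,
      WeierstrassCurve.b₈, Pool.Agent.Y696.E27]
  rw [e]
  norm_num

/-- away from three there is nothing -/
theorem away {v : HeightOneSpectrum (𝓞 k)} (h3 : (3 : 𝓞 k) ∉ v.asIdeal) :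
    cc (E27 k) v = 1 ∧ mf (E27 k) v = 1 := by
  obtain ⟨h1, h2⟩ := c_away (C := Cv (E27 k)) h3 (Cv_min (E27 k) v)
  refine ⟨h2, ?_⟩
  rw [mf_eq Δ_ne, h1, WithZero.log_one, neg_zero, zpow_zero]

lemma three_fin : {v : HeightOneSpectrum (𝓞 k) | (3 : 𝓞 k) ∈ v.asIdeal}.Finite := by
  have h0 : Ideal.span {(3 : 𝓞 k)} ≠ ⊥ := by
    rw [Ne, Ideal.span_singleton_eq_bot]
    exact_mod_cast (by norm_num : (3 : ℕ) ≠ 0)
  refine (Ideal.finite_factors h0).subset ?_
  intro v hv
  rw [Set.mem_ofPred_eq, Ideal.dvd_span_singleton]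
  exact hv

/-- **the Tamagawa numbers are odd** -/
theorem cc_odd (h : NG k) (v : HeightOneSpectrum (𝓞 k)) : Odd (cc (E27 k) v) :=
  c_odd (C := Cv (E27 k)) h v (Cv_min (E27 k) v)

/-- **the product of the local terms is an odd number times a power of three** -/
theorem CE_eq (k : Type) [Field k] [NumberField k] : ∃ j : ℤ,
    CE (E27 k) = ((∏ᶠ v : HeightOneSpectrum (𝓞 k), cc (E27 k) v : ℕ) : ℝ) * 3 ^ j := by
  obtain ⟨j, hj⟩ := minf_pow (C := Cv (E27 k)) (Cv_min (E27 k))
  refine ⟨j, ?_⟩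
  have h1 : (Function.mulSupport fun v : HeightOneSpectrum (𝓞 k) =>
      ((cc (E27 k) v : ℕ) : ℝ)).Finite := by
    refine three_fin.subset fun v hv => ?_
    by_contra h3
    refine hv ?_
    show ((cc (E27 k) v : ℕ) : ℝ) = 1
    rw [(away h3).1, Nat.cast_one]
  have h2 : (Function.mulSupport fun v : HeightOneSpectrum (𝓞 k) => mf (E27 k) v).Finite := by
    refine three_fin.subset fun v hv => ?_
    by_contra h3
    exact hv (away h3).2
  have h3 : (Function.mulSupport fun v : HeightOneSpectrum (𝓞 k) => cc (E27 k) v).Finite := by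
    refine three_fin.subset fun v hv => ?_
    by_contra h3
    exact hv (away h3).1
  have h4 : ((∏ᶠ v : HeightOneSpectrum (𝓞 k), cc (E27 k) v : ℕ) : ℝ) =
      ∏ᶠ v : HeightOneSpectrum (𝓞 k), ((cc (E27 k) v : ℕ) : ℝ) :=
    (Nat.castRingHom ℝ).toMonoidHom.map_finprod h3
  unfold CE
  rw [finprod_mul_distrib h1 h2, ← h4, ← hj]
  congr 1
  exact finprod_congr fun v => mf_eq Δ_ne v

/-- **the product of the local terms is a unit above two** -/
theorem CE_unit (h : NG k) : 0 < CE (E27 k) ∧ ∀ (Γ : Type) [LinearOrderedCommGroupWithZero Γ]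
    (v : Valuation ℂ Γ), v 2 < 1 → v ((CE (E27 k) : ℝ) : ℂ) = 1 := by
  obtain ⟨j, hj⟩ := CE_eq k
  have ho : Odd (∏ᶠ v : HeightOneSpectrum (𝓞 k), cc (E27 k) v) :=
    tam_odd (C := Cv (E27 k)) h (Cv_min (E27 k))
  rw [hj]
  refine ⟨mul_pos ?_ (by positivity), ?_⟩
  · exact_mod_cast Nat.pos_of_ne_zero fun h0 => by
      rw [h0] at ho
      exact absurd ho (by decide)
  · intro Γ _ v hv
    have hodd : ∀ n : ℤ, Odd n → v (n : ℂ) = 1 := fun n hn => Pool.Agent.Y688.v_odd hv hn
    have h3 : v (3 : ℂ) = 1 := by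
      have := hodd 3 (by decide)
      exact_mod_cast this
    push_cast
    rw [map_mul, map_zpow₀, h3, one_zpow, mul_one]
    have := hodd ((∏ᶠ v : HeightOneSpectrum (𝓞 k), cc (E27 k) v : ℕ) : ℤ) (by exact_mod_cast ho)
    exact_mod_cast this

end

end Pool.Agent.K7.H73.L3
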