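import Pool.Agent.K7.H73.L3.H
import Pool.Agent.K7.H70.ST.B
import Pool.Agent.K7.H70.AS.V
import Pool.Agent.K7.H70.CL.A
import Pool.Agent.K7.H56.Cyn

/-!
# Galois extensions of `ℚ(√-3)` of 2-power degree, with arbitrary ramification above three
-/

set_option autoImplicit false
set_option linter.unusedSectionVars false

open NumberField IsDedekindDomain WeierstrassCurve WithZero
open scoped PeriodPair nonZeroDivisors

namespace Pool.Agent.K7.H73.L3

open Pool.Agent.K7.H70.SM
open Pool.Agent.K7.H70.ST
open Pool.Agent.K7.H56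
open Pool.Agent.K7.H56.P
open Pool.Agent.R430
open Pool.Agent.Y696 Pool.Agent.W192.HK Pool.Agent.TH936.CM H667R3
open Pool.Agent.TH936.PU
open Pool.Agent.K7.H70.AS
open Pool.Agent.K7.H56.M (unr2_down)
open Pool.Agent.Y688 (NI HL)

section ng

/-- the condition above three, if the ramification index is not divisible by three -/
theorem ng_val3 {K : Type} [Field K] (V : Valuation K ℤᵐ⁰) {e : ℕ} (he : V 3 = exp (-(e : ℤ)))
    (h3e : ¬ 3 ∣ e) (r : K) : V 3 ^ 3 < V (1 + 4 * r ^ 3) ^ 2 := by
  have he0 : 0 < e := Nat.pos_of_ne_zero fun h => h3e (by rw [h]; exact dvd_zero 3)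
  have hlt : V 3 < 1 := by
    rw [he, ← exp_zero, exp_lt_exp]
    omega
  have v4 : V 4 = 1 := by
    have e1 : (4 : K) = 1 + 3 := by norm_num
    rw [e1, Valuation.map_add_eq_of_lt_left _ (by rw [map_one]; exact hlt), map_one]
  set b : K := r + 1 with hb
  have e1 : 1 + 4 * r ^ 3 = 3 * (-1 + 4 * b * (1 - b)) + 4 * b ^ 3 := by
    rw [hb]
    ring
  have h33 : V 3 ^ 3 < 1 := pow_lt_one₀ zero_le hlt (by norm_num)
  have key : exp (-(e : ℤ)) ≤ V (1 + 4 * r ^ 3) → V 3 ^ 3 < V (1 + 4 * r ^ 3) ^ 2 := by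
    intro h
    calc V 3 ^ 3 < V 3 ^ 2 := by
          rw [he, ← exp_nsmul, ← exp_nsmul, exp_lt_exp]
          simp only [nsmul_eq_mul]
          push_cast
          omega
      _ ≤ _ := by
          rw [he]
          exact pow_le_pow_left₀ zero_le h 2
  apply key
  by_cases hb1 : V b < 1
  · have hA : V (3 * (-1 + 4 * b * (1 - b))) = exp (-(e : ℤ)) := by
      rw [map_mul, he]
      have : V (-1 + 4 * b * (1 - b)) = 1 := by
        rw [Valuation.map_add_eq_of_lt_left, Valuation.map_neg, map_one]
        rw [Valuation.map_neg, map_one, map_mul, map_mul, v4, one_mul]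
        refine mul_lt_one_of_nonneg_of_lt_one_left zero_le hb1 ?_
        exact (Valuation.map_sub _ _ _).trans (max_le (by rw [map_one]) hb1.le)
      rw [this, mul_one]
    rw [e1]
    by_cases hb0 : b = 0
    · rw [hb0] at hA ⊢
      have : (4 : K) * 0 ^ 3 = 0 := by ring
      rw [this, add_zero, hA]
    · obtain ⟨n, hn⟩ : ∃ n : ℤ, V b = exp n := ⟨log _, (exp_log ((Valuation.ne_zero_iff _).2 hb0)).symm⟩
      have hB : V (4 * b ^ 3) = exp (3 * n) := by
        rw [map_mul, map_pow, v4, one_mul, hn, ← exp_nsmul]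
        rfl
      rcases lt_trichotomy (3 * n) (-(e : ℤ)) with h | h | h
      · rw [Valuation.map_add_eq_of_lt_left _ (by rw [hA, hB, exp_lt_exp]; exact h), hA]
      · exfalso
        apply h3e
        have : (3 : ℤ) ∣ (e : ℤ) := ⟨-n, by linarith⟩
        exact_mod_cast this
      · rw [Valuation.map_add_eq_of_lt_right _ (by rw [hA, hB, exp_lt_exp]; exact h), hB, exp_le_exp]
        exact h.le
  · rw [not_lt] at hb1
    have hle1 : exp (-(e : ℤ)) ≤ (1 : ℤᵐ⁰) := by
      rw [← exp_zero, exp_le_exp]
      omega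
    refine hle1.trans ?_
    have hb3 : 1 ≤ V (4 * b ^ 3) := by
      rw [map_mul, map_pow, v4, one_mul]
      exact one_le_pow₀ hb1
    have hlt' : V (3 * (-1 + 4 * b * (1 - b))) < V (4 * b ^ 3) := by
      have h5 : V (-1 + 4 * b * (1 - b)) ≤ V b ^ 2 := by
        refine Valuation.map_add_le _ ?_ ?_
        · rw [Valuation.map_neg, map_one]
          exact one_le_pow₀ hb1
        · rw [map_mul, map_mul, v4, one_mul, pow_two]
          refine mul_le_mul' le_rfl ?_
          exact (Valuation.map_sub _ _ _).trans (max_le (by rw [map_one]; exact hb1) le_rfl)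
      rw [map_mul, map_mul, map_pow, v4, one_mul]
      calc V 3 * V (-1 + 4 * b * (1 - b)) ≤ V 3 * V b ^ 2 := by gcongr
        _ < 1 * V b ^ 2 := by
          refine mul_lt_mul_of_pos_right hlt ?_
          exact lt_of_lt_of_le zero_lt_one (one_le_pow₀ hb1)
        _ = V b ^ 2 := one_mul _
        _ ≤ V b ^ 3 := pow_le_pow_right₀ hb1 (by norm_num)
    rw [e1, Valuation.map_add_eq_of_lt_right _ hlt']
    exact hb3


end ng

section base
variable (F : Type) [Field F] [NumberField F] [IsCyclotomicExtension {3} ℚ F]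

omit [IsCyclotomicExtension {3} ℚ F] in
lemma unr_one {F K : Type} [Field F] [NumberField F] [Field K] [NumberField K] [Algebra F K]
    (h : Function.Surjective (algebraMap F K)) : Unr F K := by
  intro v₀ v hlo _
  obtain ⟨π, hπ⟩ := v.valuation_exists_uniformizer K
  obtain ⟨y, rfl⟩ := h π
  have h1 := HeightOneSpectrum.valuation_liesOver K v₀ v y
  rw [hπ] at h1
  have hy : v₀.valuation F y ≠ 0 := by
    intro h0
    rw [h0] at h1
    rcases Nat.eq_zero_or_pos (v₀.asIdeal.ramificationIdx' v.asIdeal) with h2 | h2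
    · rw [h2, pow_zero, ← exp_zero] at h1
      exact absurd (exp_injective h1) (by norm_num)
    · rw [zero_pow h2.ne'] at h1
      exact exp_ne_zero h1.symm
  obtain ⟨m, hm⟩ : ∃ m : ℤ, v₀.valuation F y = exp m := ⟨log _, (exp_log hy).symm⟩
  rw [hm, ← exp_nsmul] at h1
  have h3 := exp_injective h1
  simp only [nsmul_eq_mul] at h3
  have h4 : ((v₀.asIdeal.ramificationIdx' v.asIdeal : ℕ) : ℤ) ∣ 1 := ⟨-m, by linarith⟩
  have h5 : v₀.asIdeal.ramificationIdx' v.asIdeal ∣ 1 := by exact_mod_cast h4
  exact Nat.dvd_one.1 h5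

lemma unr_id : Unr F F := unr_one (fun x => ⟨x, rfl⟩)

lemma gn3 : Gn F := Gn.of (F := F) (K := F) (n := 0) (by simp) (unr_id F)

lemma gz3 : Gz F := ⟨(gn3 F).om, (gn3 F).two, (gn3 F).sq⟩

lemma ng3 : NG F := fun w hw r =>
  ng_val3 (w.valuation F) (e := 2) ((gn3 F).three w hw) (by norm_num) r

lemma fr3 : Module.finrank ℚ F = 2 * 1 := by
  rw [IsCyclotomicExtension.finrank (n := 3) F (Polynomial.cyclotomic.irreducible_rat (by norm_num))]
  decide

theorem base3 (ι : Pool.Agent.Y688.RR →+* 𝓞 F) : Base ι 1 :=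
  base0 (F0 := F) (K := F) (Pool.Agent.K7.H70.CL.core3 Pool.Agent.K7.H56.pz_true) (by simp) (unr_id F) ι

end base

section tower
variable {F K : Type} [Field F] [NumberField F] [Field K] [NumberField K] [Algebra F K] [IsGalois F K]

/-- the condition at three goes up towers -/
theorem ng_tower (hF : NG F) {r : ℕ} (hr : Module.finrank F K = 2 ^ r) (n : ℕ) :
    ∀ (T : Type) [Field T] [NumberField T] [Algebra F T], (T →ₐ[F] K) →
      Module.finrank F T = 2 ^ n → NG T := by
  induction n with
  | zero =>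
    intro T _ _ _ φ h1
    rw [pow_zero] at h1
    have hb : Function.Bijective (algebraMap F T) := by
      have hfd : FiniteDimensional F T := Module.finite_of_finrank_pos (by rw [h1]; norm_num)
      refine ⟨(algebraMap F T).injective, fun x => ?_⟩
      have h2 : x ∈ (⊥ : Subalgebra F T) := by
        rw [(Subalgebra.bot_eq_top_iff_finrank_eq_one (F := F) (E := T)).2 h1]
        exact Algebra.mem_top
      exact Algebra.mem_bot.1 h2
    let e : F ≃+* T := RingEquiv.ofBijective (algebraMap F T) hb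
    let _ : Algebra T F := (e.symm : T →+* F).toAlgebra
    exact ng_small (k := T) (K := F) hF
  | succ m ih =>
    intro T _ _ _ φ h1
    obtain ⟨N, h2, h3⟩ := exists_mid (K := K) h1 hr φ
    exact ng_up (K := N) (M := T) h3 (ih N (φ.comp N.val) h2)

end tower

section three
variable {F K : Type} [Field F] [NumberField F] [IsCyclotomicExtension {3} ℚ F] [Field K]
  [NumberField K] [Algebra F K] [IsGalois F K]

/-- **every subfield** -/
theorem ngs3 (hr : ∃ r : ℕ, Module.finrank F K = 2 ^ r) {k : Type} [Field k] [NumberField k]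
    [Algebra k K] : NG k := by
  obtain ⟨r, hr⟩ := hr
  exact ng_small (K := K) (ng_tower (ng3 F) hr r K (AlgHom.id F K) hr)

/-- **every subfield** -/
theorem selv3 (hr : ∃ r : ℕ, Module.finrank F K = 2 ^ r) (hG : Gd F K)
    {k : Type} [Field k] [NumberField k] [Algebra k K] : SelV k := by
  obtain ⟨r, hr⟩ := hr
  have hGK : Gz K := (gz3 F).step hr hG
  obtain ⟨a0, ha0⟩ := exists_sqrt3 (F0 := F)
  set a : K := algebraMap F K a0 with haK
  have ha : a ^ 2 = -3 := by rw [haK, ← map_pow, ha0, map_neg, map_ofNat]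
  set T : IntermediateField k K := IntermediateField.adjoin k {a} with hT
  have haT : a ∈ T := IntermediateField.mem_adjoin_simple_self k a
  obtain ⟨f, hf⟩ := exists_alg (F0 := F) (K := K) (M := T) (a := ⟨a, haT⟩) (Subtype.ext (by
    show a ^ 2 = algebraMap T K (-3)
    rw [map_neg, map_ofNat]
    exact ha))
  let _ : Algebra F T := f.toAlgebra
  have hst : IsScalarTower F T K := IsScalarTower.of_algebraMap_eq' hf.symm
  have hgal2 : IsGalois T K := IsGalois.tower_top_of_isGalois F T K
  have hnor : Normal k T := by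
    have hint : IsIntegral k a := Algebra.IsIntegral.isIntegral a
    by_cases hns : ∀ x : k, x ^ 2 ≠ -3
    · have hirr : Irreducible (Polynomial.X ^ 2 - Polynomial.C (-3 : k)) := by
        rw [X_pow_sub_C_irreducible_iff_of_prime Nat.prime_two]
        exact fun b => hns b
      have hmin : minpoly k a = Polynomial.X ^ 2 - Polynomial.C (-3 : k) := by
        refine (minpoly.eq_of_irreducible_of_monic hirr ?_ (Polynomial.monic_X_pow_sub_C _ two_ne_zero)).symm
        rw [map_sub, map_pow, Polynomial.aeval_X, Polynomial.aeval_C, map_neg, map_ofNat, ha, sub_self]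
      have h3 := IntermediateField.adjoin.finrank hint
      rw [hmin, Polynomial.natDegree_X_pow_sub_C] at h3
      have hq : Algebra.IsQuadraticExtension k T := ⟨h3⟩
      infer_instance
    · push Not at hns
      obtain ⟨x, hx⟩ := hns
      have h4 : (algebraMap k K x - a) * (algebraMap k K x + a) = 0 := by
        have e1 : algebraMap k K x ^ 2 = -3 := by rw [← map_pow, hx, map_neg, map_ofNat]
        linear_combination e1 - ha
      have h5 : a ∈ (⊥ : IntermediateField k K) := by
        rw [IntermediateField.mem_bot]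
        rcases mul_eq_zero.1 h4 with h | h
        · exact ⟨x, sub_eq_zero.1 h⟩
        · exact ⟨-x, by rw [map_neg]; linear_combination -h⟩
      have h6 : T = ⊥ := by
        rw [hT, IntermediateField.adjoin_simple_eq_bot_iff]
        exact h5
      rw [h6]
      infer_instance
  have h1 : SelV T := (selv_of_gz hGK).down (k := T) (K := K)
  exact h1.down (k := k) (K := T)

/-- **the value over the subfields with a cube root of unity** -/
theorem base_om3 {r : ℕ} (hr : Module.finrank F K = 2 ^ r) (hU : Unr2 K)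
    (hG : Gd F K) {k : Type} [Field k] [NumberField k] [Algebra k K] {a : k} (ha : a ^ 2 = -3)
    (ι : Pool.Agent.Y688.RR →+* 𝓞 k) :
    ∃ d : ℕ, Module.finrank ℚ k = 2 * d ∧ Base ι d := by
  obtain ⟨f, hf⟩ := exists_alg (F0 := F) (K := K) (M := k) ha
  let _ : Algebra F k := f.toAlgebra
  let φ : k →ₐ[F] K :=
    { (algebraMap k K) with
      commutes' := fun x => by
        show algebraMap k K (f x) = algebraMap F K x
        rw [← hf]
        rfl }
  have hst : IsScalarTower F k K := IsScalarTower.of_algebraMap_eq fun x => (φ.commutes x).symm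
  have hd : Module.finrank F k ∣ 2 ^ r := by
    rw [← hr, ← Module.finrank_mul_finrank F k K]
    exact Dvd.intro _ rfl
  obtain ⟨n, -, hn⟩ := (Nat.dvd_prime_pow Nat.prime_two).1 hd
  obtain ⟨i, hi⟩ := iota_desc' (M := F) (K := k) (gz3 F).om ι
  refine ⟨1 * 2 ^ n, ?_, ?_⟩
  · rw [← Module.finrank_mul_finrank ℚ F k, fr3 F, hn]
    ring
  · rw [← hi]
    intro g hg L Ω hC Γ _ v hv
    have hL := HL_of_Cur hC
    obtain ⟨f0, -, hf0, -, -⟩ := core_gen2 F i 1 (fr3 F) (gz3 F).two 1 (X0 1) (X0 1)
      (X0_ih 1) (X0_ih 1) odd_one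
    exact (tower_good i hr hU hG (fr3 F) hf0 hL hv n k φ hn g hg).2
      (base3 F i f0 hf0 L Ω hC Γ v hv)

/-- **every subfield** -/
theorem val3 (hr : ∃ r : ℕ, Module.finrank F K = 2 ^ r) (hG : Gd F K)
    {k : Type} [Field k] [NumberField k] [Algebra k K] : Val2 k := by
  have h3 : Add3 k := add3_of_ng (ngs3 (F := F) (K := K) hr)
  obtain ⟨r, hr⟩ := hr
  have hGK : Gz K := (gz3 F).step hr hG
  have hU : Unr2 K := hGK.two
  by_cases hns : ∀ x : k, x ^ 2 ≠ -3
  · obtain ⟨a0, ha0⟩ := exists_sqrt3 (F0 := F)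
    set a : K := algebraMap F K a0 with haK
    have ha : a ^ 2 = -3 := by rw [haK, ← map_pow, ha0, map_neg, map_ofNat]
    set T : IntermediateField k K := IntermediateField.adjoin k {a} with hT
    have haT : a ∈ T := IntermediateField.mem_adjoin_simple_self k a
    have haT' : (⟨a, haT⟩ : T) ^ 2 = -3 := Subtype.ext (by
      show a ^ 2 = algebraMap T K (-3)
      rw [map_neg, map_ofNat]
      exact ha)
    obtain ⟨ι'⟩ := exists_iota (N := T) ⟨((⟨a, haT⟩ : T) - 1) / 2, by
      field_simp
      linear_combination haT'⟩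
    set ι : Pool.Agent.Y688.RR →+* 𝓞 T :=
      ι'.comp (RingEquiv.subringCongr RR_eis : Pool.Agent.Y688.RR →+* eis) with hι
    obtain ⟨d, hd, hB⟩ := base_om3 (F := F) hr hU hG haT' ι
    obtain ⟨f, hf⟩ := exists_VV ι hd (unr2_down (F := T) (K := K) hU)
    have h2 : Module.finrank k T = 2 := by
      have hirr : Irreducible (Polynomial.X ^ 2 - Polynomial.C (-3 : k)) := by
        rw [X_pow_sub_C_irreducible_iff_of_prime Nat.prime_two]
        exact fun b => hns b
      have hmin : minpoly k a = Polynomial.X ^ 2 - Polynomial.C (-3 : k) := by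
        refine (minpoly.eq_of_irreducible_of_monic hirr ?_ (Polynomial.monic_X_pow_sub_C _ two_ne_zero)).symm
        rw [map_sub, map_pow, Polynomial.aeval_X, Polynomial.aeval_C, map_neg, map_ofNat, ha, sub_self]
      have hint : IsIntegral k a := by
        refine ⟨Polynomial.X ^ 2 - Polynomial.C (-3 : k), Polynomial.monic_X_pow_sub_C _ two_ne_zero, ?_⟩
        rw [Polynomial.eval₂_sub, Polynomial.eval₂_pow, Polynomial.eval₂_X, Polynomial.eval₂_C, map_neg,
          map_ofNat, ha, sub_self]
      have h3 := IntermediateField.adjoin.finrank hint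
      rw [hmin, Polynomial.natDegree_X_pow_sub_C] at h3
      exact h3
    exact val_small ι hd hB hf (fun h => hGK.disc_odd (h.trans (discr_dvd_discr T K))) h2 h3 hns
  · push Not at hns
    obtain ⟨a, ha⟩ := hns
    have hom : ((a - 1) / 2) ^ 2 + (a - 1) / 2 + 1 = 0 := by
      field_simp
      linear_combination ha
    obtain ⟨ι'⟩ := exists_iota (N := k) ⟨(a - 1) / 2, hom⟩
    set ι : Pool.Agent.Y688.RR →+* 𝓞 k :=
      ι'.comp (RingEquiv.subringCongr RR_eis : Pool.Agent.Y688.RR →+* eis) with hι
    obtain ⟨d, hd, hB⟩ := base_om3 (F := F) hr hU hG ha ι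
    obtain ⟨f, hf⟩ := exists_VV ι hd (unr2_down (F := k) (K := K) hU)
    exact val_big ι h3 hd hB hf (fun h => hGK.disc_odd (h.trans (discr_dvd_discr k K))) ⟨_, hom⟩

end three

end Pool.Agent.K7.H73.L3
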