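import Mathlib

/-!
# The points of nonsingular reduction on an integral Weierstrass equation, not necessarily minimal
-/

set_option autoImplicit false
set_option linter.unusedSectionVars false

open WeierstrassCurve
open scoped Classical

namespace Pool.Agent.K7.H73.L3

section alg
variable {L : Type} [Field L] {Γ : Type} [LinearOrderedCommGroupWithZero Γ] (v : Valuation L Γ)
  (W : WeierstrassCurve L)

/-- the coefficients are integral -/
structure Itg : Prop where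
  a1 : v W.a₁ ≤ 1
  a2 : v W.a₂ ≤ 1
  a3 : v W.a₃ ≤ 1
  a4 : v W.a₄ ≤ 1
  a6 : v W.a₆ ≤ 1

/-- the points with nonsingular reduction -/
def gens : Set W.toAffine.Point :=
  {P | ∀ x y h, P = Affine.Point.some x y h →
    1 ≤ v (2 * y + W.a₁ * x + W.a₃) ∨
    1 ≤ v (3 * x ^ 2 + 2 * W.a₂ * x + W.a₄ - W.a₁ * y)}

/-- the group generated by them -/
noncomputable def ns : AddSubgroup W.toAffine.Point := AddSubgroup.closure (gens v W)

variable {v W}

lemma v_two_or : v 2 = 1 ∨ v 3 = 1 := by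
  have h2 : v (2 : L) ≤ 1 := by
    have : (2 : L) = 1 + 1 := by norm_num
    rw [this]
    exact (v.map_add _ _).trans (by rw [map_one, max_self])
  have h3 : v (3 : L) ≤ 1 := by
    have : (3 : L) = 2 + 1 := by norm_num
    rw [this]
    exact (v.map_add _ _).trans (max_le h2 (by rw [map_one]))
  by_contra hcon
  rw [not_or] at hcon
  have h4 : v (3 - 2 : L) < 1 := (v.map_sub _ _).trans_lt
    (max_lt (lt_of_le_of_ne h3 hcon.2) (lt_of_le_of_ne h2 hcon.1))
  have : (3 - 2 : L) = 1 := by norm_num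
  rw [this, map_one] at h4
  exact lt_irrefl _ h4

lemma v_two_le : v (2 : L) ≤ 1 := by
  have : (2 : L) = 1 + 1 := by norm_num
  rw [this]
  exact (v.map_add _ _).trans (by rw [map_one, max_self])

lemma v_three_le : v (3 : L) ≤ 1 := by
  have : (3 : L) = 2 + 1 := by norm_num
  rw [this]
  exact (v.map_add _ _).trans (max_le v_two_le (by rw [map_one]))

/-- sums of terms -/
lemma add_le' {a b : L} {g : Γ} (ha : v a ≤ g) (hb : v b ≤ g) : v (a + b) ≤ g :=
  (v.map_add _ _).trans (max_le ha hb)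

lemma sub_le' {a b : L} {g : Γ} (ha : v a ≤ g) (hb : v b ≤ g) : v (a - b) ≤ g :=
  (v.map_sub _ _).trans (max_le ha hb)

lemma add_lt' {a b : L} {g : Γ} (ha : v a < g) (hb : v b < g) : v (a + b) < g :=
  (v.map_add _ _).trans_lt (max_lt ha hb)

lemma mul_le' {a b : L} {g : Γ} (ha : v a ≤ 1) (hb : v b ≤ g) : v (a * b) ≤ g := by
  rw [map_mul]
  calc v a * v b ≤ 1 * g := mul_le_mul' ha hb
    _ = g := one_mul _

/-- the discriminant -/
lemma disc_le (hW : Itg v W) {x y : L} (h : W.toAffine.Equation x y) (hx : v x ≤ 1)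
    (hy : v y ≤ 1) : v W.Δ ≤ max (v (2 * y + W.a₁ * x + W.a₃))
      (v (3 * x ^ 2 + 2 * W.a₂ * x + W.a₄ - W.a₁ * y)) := by
  set D1 := 2 * y + W.a₁ * x + W.a₃ with hD1
  set D2 := 3 * x ^ 2 + 2 * W.a₂ * x + W.a₄ - W.a₁ * y with hD2
  have heq := (Affine.equation_iff x y).1 h
  set C : VariableChange L := ⟨1, x, 0, y⟩ with hC
  have c1 : (C • W).a₁ = W.a₁ := by
    rw [variableChange_a₁, hC]
    simp
  have c2 : (C • W).a₂ = W.a₂ + 3 * x := by
    rw [variableChange_a₂, hC]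
    simp
  have c3 : (C • W).a₃ = D1 := by
    rw [variableChange_a₃, hC, hD1]
    simp
    ring
  have c4 : (C • W).a₄ = D2 := by
    rw [variableChange_a₄, hC, hD2]
    simp
    ring
  have c6 : (C • W).a₆ = 0 := by
    rw [variableChange_a₆, hC]
    simp only [inv_one, Units.val_one, one_pow, one_mul]
    linear_combination -heq
  have cD : (C • W).Δ = W.Δ := by
    rw [variableChange_Δ, hC]
    simp
  set a1 : v.integer := ⟨W.a₁, hW.a1⟩ with ha1
  set a2 : v.integer := ⟨W.a₂, hW.a2⟩ with ha2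
  set a3 : v.integer := ⟨W.a₃, hW.a3⟩ with ha3
  set a4 : v.integer := ⟨W.a₄, hW.a4⟩ with ha4
  set X : v.integer := ⟨x, hx⟩ with hX
  set Y : v.integer := ⟨y, hy⟩ with hY
  set E1 : v.integer := 2 * Y + a1 * X + a3 with hE1
  set E2 : v.integer := 3 * X ^ 2 + 2 * a2 * X + a4 - a1 * Y with hE2
  set B2 : v.integer := a1 ^ 2 + 4 * (a2 + 3 * X) with hB2
  set B4 : v.integer := 2 * E2 + a1 * E1 with hB4
  set A : v.integer := B2 ^ 2 * a1 * E2 - B2 ^ 2 * (a2 + 3 * X) * E1 - 8 * a1 * B4 ^ 2 -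
    27 * E1 ^ 3 + 9 * B2 * B4 * E1 with hA
  set B : v.integer := B2 ^ 2 * E2 - 16 * B4 ^ 2 with hB
  have e1 : (E1 : L) = D1 := by rw [hE1, hD1]; push_cast; rfl
  have e2 : (E2 : L) = D2 := by rw [hE2, hD2]; push_cast; rfl
  have key : W.Δ = D1 * (A : L) + D2 * (B : L) := by
    rw [← cD]
    have f2 : (B2 : L) = W.a₁ ^ 2 + 4 * (W.a₂ + 3 * x) := by rw [hB2]; push_cast; rfl
    have f4 : (B4 : L) = 2 * D2 + W.a₁ * D1 := by rw [hB4, ← e1, ← e2]; push_cast; rfl
    have fA : (A : L) = (B2 : L) ^ 2 * W.a₁ * D2 - (B2 : L) ^ 2 * (W.a₂ + 3 * x) * D1 -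
        8 * W.a₁ * (B4 : L) ^ 2 - 27 * D1 ^ 3 + 9 * (B2 : L) * (B4 : L) * D1 := by
      rw [hA, ← e1, ← e2]; push_cast; rfl
    have fB : (B : L) = (B2 : L) ^ 2 * D2 - 16 * (B4 : L) ^ 2 := by
      rw [hB, ← e2]; push_cast; rfl
    simp only [WeierstrassCurve.Δ, WeierstrassCurve.b₂, WeierstrassCurve.b₄, WeierstrassCurve.b₆,
      WeierstrassCurve.b₈]
    rw [c1, c2, c3, c4, c6, fA, fB, f2, f4]
    ring
  rw [key]
  refine (v.map_add _ _).trans (max_le_max ?_ ?_)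
  · rw [mul_comm]
    exact mul_le' A.2 le_rfl
  · rw [mul_comm]
    exact mul_le' B.2 le_rfl

/-- the size of `y` -/
lemma y_size (hW : Itg v W) {x y : L} (h : W.toAffine.Equation x y) (hx : 1 < v x) :
    v x < v y ∧ v y < v x ^ 2 := by
  have heq := (Affine.equation_iff x y).1 h
  have hx0 : 0 < v x := zero_lt_one.trans hx
  have hxx : v x ≤ v x ^ 2 := by
    calc v x = v x ^ 1 := (pow_one _).symm
      _ ≤ v x ^ 2 := pow_le_pow_right₀ hx.le (by norm_num)
  have h23 : v x ^ 2 < v x ^ 3 := pow_lt_pow_right₀ hx (by norm_num)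
  have h34 : v x ^ 3 < v x ^ 4 := pow_lt_pow_right₀ hx (by norm_num)
  have h1x : (1 : Γ) ≤ v x ^ 2 := one_le_pow₀ hx.le
  constructor
  · by_contra hy
    rw [not_lt] at hy
    have h1 : x ^ 3 = y ^ 2 + W.a₁ * (x * y) + W.a₃ * y - W.a₂ * x ^ 2 - W.a₄ * x - W.a₆ := by
      linear_combination -heq
    have h2 : v (x ^ 3) ≤ v x ^ 2 := by
      rw [h1]
      refine sub_le' (sub_le' (sub_le' (add_le' (add_le' ?_ ?_) ?_) ?_) ?_) ?_
      · rw [map_pow]
        exact pow_le_pow_left₀ zero_le hy 2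
      · refine mul_le' hW.a1 ?_
        rw [map_mul, pow_two]
        exact mul_le_mul' le_rfl hy
      · exact mul_le' hW.a3 (hy.trans hxx)
      · exact mul_le' hW.a2 (by rw [map_pow])
      · exact mul_le' hW.a4 hxx
      · exact hW.a6.trans h1x
    rw [map_pow] at h2
    exact absurd h23 (not_lt.2 h2)
  · by_contra hy
    rw [not_lt] at hy
    have hy1 : v x < v y := lt_of_lt_of_le (by
      calc v x = v x ^ 1 := (pow_one _).symm
        _ < v x ^ 2 := pow_lt_pow_right₀ hx (by norm_num)) hy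
    have h1 : y * (y + (W.a₁ * x + W.a₃)) = x ^ 3 + W.a₂ * x ^ 2 + W.a₄ * x + W.a₆ := by
      linear_combination heq
    have h2 : v (W.a₁ * x + W.a₃) < v y :=
      (add_le' (mul_le' hW.a1 le_rfl) (hW.a3.trans hx.le)).trans_lt hy1
    have h3 : v (y + (W.a₁ * x + W.a₃)) = v y := v.map_add_eq_of_lt_left h2
    have h4 : v (x ^ 3 + W.a₂ * x ^ 2 + W.a₄ * x + W.a₆) ≤ v x ^ 3 := by
      refine add_le' (add_le' (add_le' ?_ ?_) ?_) ?_
      · rw [map_pow]
      · exact mul_le' hW.a2 (by rw [map_pow]; exact h23.le)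
      · exact mul_le' hW.a4 (hxx.trans h23.le)
      · exact hW.a6.trans (h1x.trans h23.le)
    rw [← h1, map_mul, h3] at h4
    have h5 : v x ^ 4 ≤ v y * v y := by
      calc v x ^ 4 = v x ^ 2 * v x ^ 2 := by rw [← pow_add]
        _ ≤ v y * v y := mul_le_mul' hy hy
    exact absurd (h5.trans h4) (not_le.2 h34)

/-- the points that are not integral -/
lemma ns_big (hW : Itg v W) {x y : L} (h : W.toAffine.Equation x y) (hx : 1 < v x) :
    1 ≤ v (2 * y + W.a₁ * x + W.a₃) ∨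
      1 ≤ v (3 * x ^ 2 + 2 * W.a₂ * x + W.a₄ - W.a₁ * y) := by
  obtain ⟨h1, h2⟩ := y_size hW h hx
  have hxx : v x < v x ^ 2 := by
    calc v x = v x ^ 1 := (pow_one _).symm
      _ < v x ^ 2 := pow_lt_pow_right₀ hx (by norm_num)
  rcases v_two_or (v := v) with h3 | h3
  · left
    have e : v (2 * y) = v y := by rw [map_mul, h3, one_mul]
    have h4 : v (W.a₁ * x + W.a₃) < v (2 * y) := by
      rw [e]
      exact (add_le' (mul_le' hW.a1 le_rfl) (hW.a3.trans hx.le)).trans_lt h1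
    rw [add_assoc, v.map_add_eq_of_lt_left h4, e]
    exact (hx.trans h1).le
  · right
    have e : v (3 * x ^ 2) = v x ^ 2 := by rw [map_mul, h3, one_mul, map_pow]
    have h4 : v (2 * W.a₂ * x + W.a₄ - W.a₁ * y) < v (3 * x ^ 2) := by
      rw [e]
      refine (v.map_sub _ _).trans_lt (max_lt ?_ ?_)
      · refine lt_of_le_of_lt (add_le' (mul_le' ?_ le_rfl) (hW.a4.trans hx.le)) hxx
        exact mul_le' v_two_le hW.a2
      · exact lt_of_le_of_lt (mul_le' hW.a1 le_rfl) h2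
    have e2 : 3 * x ^ 2 + 2 * W.a₂ * x + W.a₄ - W.a₁ * y =
        3 * x ^ 2 + (2 * W.a₂ * x + W.a₄ - W.a₁ * y) := by ring
    rw [e2, v.map_add_eq_of_lt_left h4, e]
    exact (hx.trans hxx).le

lemma y_int (hW : Itg v W) {x y : L} (h : W.toAffine.Equation x y) (hx : v x ≤ 1) : v y ≤ 1 := by
  by_contra hy
  rw [not_le] at hy
  have heq := (Affine.equation_iff x y).1 h
  have h1 : y * (y + (W.a₁ * x + W.a₃)) = x ^ 3 + W.a₂ * x ^ 2 + W.a₄ * x + W.a₆ := by
    linear_combination heq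
  have h2 : v (W.a₁ * x + W.a₃) < v y := (add_le' (mul_le' hW.a1 hx) hW.a3).trans_lt hy
  have h3 : v (y + (W.a₁ * x + W.a₃)) = v y := v.map_add_eq_of_lt_left h2
  have h4 : v (x ^ 3 + W.a₂ * x ^ 2 + W.a₄ * x + W.a₆) ≤ 1 := by
    refine add_le' (add_le' (add_le' ?_ ?_) ?_) hW.a6
    · rw [map_pow]
      exact pow_le_one₀ zero_le hx
    · exact mul_le' hW.a2 (by rw [map_pow]; exact pow_le_one₀ zero_le hx)
    · exact mul_le' hW.a4 hx
  rw [← h1, map_mul, h3] at h4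
  exact absurd h4 (not_le.2 (one_lt_mul_of_lt_of_le hy hy.le))

/-- the slope of the line through a point and the negative of a point which is close to it -/
lemma slope_big (hW : Itg v W) {x1 y1 x2 y2 : L} (h1 : W.toAffine.Equation x1 y1)
    (h2 : W.toAffine.Equation x2 y2) (hx1 : v x1 ≤ 1) (hx2 : v x2 ≤ 1) {γ : Γ}
    (hγ : γ < v W.Δ) (hx : v (x1 - x2) ≤ γ) (hy : v (y1 - y2) ≤ γ) (hne : ¬ (x1 = x2 ∧ y1 = y2)) :
    v W.Δ ≤ v (W.toAffine.slope x1 x2 y1 (W.toAffine.negY x2 y2)) * γ := by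
  have hy1 := y_int hW h1 hx1
  have hy2 := y_int hW h2 hx2
  have e1 := (Affine.equation_iff x1 y1).1 h1
  have e2 := (Affine.equation_iff x2 y2).1 h2
  have hnn : W.toAffine.negY x2 (W.toAffine.negY x2 y2) = y2 := by
    rw [Affine.negY_negY]
  by_cases hxx : x1 = x2
  · subst hxx
    have hyy : y1 ≠ y2 := fun h => hne ⟨rfl, h⟩
    have e3 : y1 + y2 + W.a₁ * x1 + W.a₃ = 0 := by
      have : (y1 - y2) * (y1 + y2 + W.a₁ * x1 + W.a₃) = 0 := by linear_combination e1 - e2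
      exact (mul_eq_zero.1 this).resolve_left (sub_ne_zero.2 hyy)
    rw [Affine.slope_of_Y_ne rfl (by rw [hnn]; exact hyy)]
    have e4 : y1 - W.toAffine.negY x1 y1 = y1 - y2 := by
      rw [Affine.negY]
      linear_combination e3
    have e5 : 2 * y1 + W.a₁ * x1 + W.a₃ = y1 - y2 := by linear_combination e3
    have h3 := disc_le hW h1 hx1 hy1
    rw [e5] at h3
    have h4 : v W.Δ ≤ v (3 * x1 ^ 2 + 2 * W.a₂ * x1 + W.a₄ - W.a₁ * y1) := by
      rcases le_max_iff.1 h3 with h | h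
      · exact absurd (h.trans hy) (not_le.2 hγ)
      · exact h
    have h5 : v (y1 - y2) ≠ 0 := (Valuation.ne_zero_iff _).2 (sub_ne_zero.2 hyy)
    rw [e4, map_div₀]
    calc v W.Δ ≤ v (3 * x1 ^ 2 + 2 * W.a₂ * x1 + W.a₄ - W.a₁ * y1) := h4
      _ = v (3 * x1 ^ 2 + 2 * W.a₂ * x1 + W.a₄ - W.a₁ * y1) / v (y1 - y2) * v (y1 - y2) :=
        (div_mul_cancel₀ _ h5).symm
      _ ≤ _ := mul_le_mul' le_rfl hy
  · rw [Affine.slope_of_X_ne hxx]
    have hs : x1 - x2 ≠ 0 := sub_ne_zero.2 hxx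
    have hvs : v (x1 - x2) ≠ 0 := (Valuation.ne_zero_iff _).2 hs
    set N1 := y1 - W.toAffine.negY x2 y2 with hN1
    have eN1 : N1 = (2 * y2 + W.a₁ * x2 + W.a₃) + (y1 - y2) := by
      rw [hN1, Affine.negY]
      ring
    have h3 := disc_le hW h2 hx2 hy2
    rcases le_max_iff.1 h3 with h | h
    · have h4 : v N1 = v (2 * y2 + W.a₁ * x2 + W.a₃) := by
        rw [eN1]
        exact v.map_add_eq_of_lt_left ((hy.trans_lt hγ).trans_le h)
      rw [map_div₀]
      calc v W.Δ ≤ v N1 := by rw [h4]; exact h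
        _ = v N1 / v (x1 - x2) * v (x1 - x2) := (div_mul_cancel₀ _ hvs).symm
        _ ≤ _ := mul_le_mul' le_rfl hx
    · set D2 := 3 * x2 ^ 2 + 2 * W.a₂ * x2 + W.a₄ - W.a₁ * y2 with hD2
      set N2 := D2 + ((x1 - x2) * (x1 + 2 * x2 + W.a₂) - W.a₁ * (y1 - y2)) with hN2
      have e3 : (y1 - y2) * N1 = (x1 - x2) * N2 := by
        rw [hN2, hD2, hN1, Affine.negY]
        linear_combination e1 - e2
      have e4 : N1 / (x1 - x2) * (y1 - y2) = N2 := by
        field_simp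
        linear_combination e3
      have h5 : v ((x1 - x2) * (x1 + 2 * x2 + W.a₂) - W.a₁ * (y1 - y2)) ≤ γ := by
        refine sub_le' ?_ (mul_le' hW.a1 hy)
        rw [mul_comm]
        exact mul_le' (add_le' (add_le' hx1 (mul_le' v_two_le hx2)) hW.a2) hx
      have h6 : v N2 = v D2 := by
        rw [hN2]
        exact v.map_add_eq_of_lt_left ((h5.trans_lt hγ).trans_le h)
      calc v W.Δ ≤ v N2 := by rw [h6]; exact h
        _ = v (N1 / (x1 - x2)) * v (y1 - y2) := by rw [← e4, map_mul]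
        _ ≤ _ := mul_le_mul' le_rfl hy

/-- the difference of two points which are close -/
lemma sub_big (hW : Itg v W) {x1 y1 x2 y2 : L} (h1 : W.toAffine.Nonsingular x1 y1)
    (h2 : W.toAffine.Nonsingular x2 y2) (hx1 : v x1 ≤ 1) (hx2 : v x2 ≤ 1) {γ : Γ}
    (hγ : γ < v W.Δ) (hx : v (x1 - x2) ≤ γ) (hy : v (y1 - y2) ≤ γ) (hne : ¬ (x1 = x2 ∧ y1 = y2)) :
    ∃ x y h, (Affine.Point.some x1 y1 h1 - Affine.Point.some x2 y2 h2 : W.toAffine.Point) =
      Affine.Point.some x y h ∧ 1 < v x := by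
  have hs := slope_big hW h1.1 h2.1 hx1 hx2 hγ hx hy hne
  set ℓ := W.toAffine.slope x1 x2 y1 (W.toAffine.negY x2 y2) with hℓ
  have h3 : 1 < v ℓ := by
    by_contra hcon
    rw [not_lt] at hcon
    have : v W.Δ ≤ γ := by
      calc v W.Δ ≤ v ℓ * γ := hs
        _ ≤ 1 * γ := mul_le_mul' hcon le_rfl
        _ = γ := one_mul _
    exact absurd this (not_le.2 hγ)
  have hnn : W.toAffine.negY x2 (W.toAffine.negY x2 y2) = y2 := by
    rw [Affine.negY_negY]
  have hxy : ¬ (x1 = x2 ∧ y1 = W.toAffine.negY x2 (W.toAffine.negY x2 y2)) := by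
    rw [hnn]
    exact hne
  refine ⟨W.toAffine.addX x1 x2 ℓ, W.toAffine.addY x1 x2 y1 ℓ,
    Affine.nonsingular_add h1 ((Affine.nonsingular_neg ..).mpr h2) hxy, ?_, ?_⟩
  · rw [sub_eq_add_neg, Affine.Point.neg_some]
    exact Affine.Point.add_some hxy
  · rw [Affine.addX]
    have h4 : v ℓ < v (ℓ ^ 2) := by
      rw [map_pow]
      calc v ℓ = v ℓ ^ 1 := (pow_one _).symm
        _ < v ℓ ^ 2 := pow_lt_pow_right₀ h3 (by norm_num)
    have h5 : v (W.a₁ * ℓ - W.a₂ - x1 - x2) < v (ℓ ^ 2) := by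
      refine lt_of_le_of_lt (sub_le' (sub_le' (sub_le' (mul_le' hW.a1 le_rfl) ?_) ?_) ?_) h4
      · exact hW.a2.trans h3.le
      · exact hx1.trans h3.le
      · exact hx2.trans h3.le
    have e : ℓ ^ 2 + W.a₁ * ℓ - W.a₂ - x1 - x2 = ℓ ^ 2 + (W.a₁ * ℓ - W.a₂ - x1 - x2) := by ring
    rw [e, v.map_add_eq_of_lt_left h5]
    exact h3.trans h4

end alg

end Pool.Agent.K7.H73.L3
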