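import Pool.Agent.K7.H73.L3.A

/-!
# Finite index and odd index
-/

set_option autoImplicit false
set_option linter.unusedSectionVars false

open WeierstrassCurve
open scoped Classical

namespace Pool.Agent.K7.H73.L3

section grp
variable {G : Type} [AddCommGroup G] (N : AddSubgroup G)

lemma fi_of_map {S : Type} [Finite S] (κ : G → S) (h : ∀ a b, κ a = κ b → a - b ∈ N) :
    N.FiniteIndex := by
  have : Finite (G ⧸ N) := by
    refine Finite.of_injective (fun q : G ⧸ N => κ q.out) ?_
    intro q q' hq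
    have h1 := h _ _ hq
    rw [← QuotientAddGroup.out_eq' q, ← QuotientAddGroup.out_eq' q', QuotientAddGroup.eq]
    have : -q.out + q'.out = -(q.out - q'.out) := by abel
    rw [this]
    exact neg_mem h1
  exact AddSubgroup.finiteIndex_of_finite_quotient

lemma odd_card_of {A : Type} [AddCommGroup A] [Finite A] (h : ∀ a : A, ∃ m : ℕ, Odd m ∧ m • a = 0) :
    Odd (Nat.card A) := by
  by_contra hcon
  rw [Nat.not_odd_iff_even, even_iff_two_dvd] at hcon
  have : Fact (Nat.Prime 2) := ⟨Nat.prime_two⟩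
  obtain ⟨a, ha⟩ := exists_prime_addOrderOf_dvd_card' (G := A) 2 hcon
  obtain ⟨m, hm, hma⟩ := h a
  have h1 := addOrderOf_dvd_of_nsmul_eq_zero hma
  rw [ha] at h1
  exact (Nat.not_even_iff_odd.2 hm) (even_iff_two_dvd.2 h1)

lemma inj_pow (h2 : ∀ g : G, 2 • g = 0 → g = 0) (i : ℕ) : ∀ g : G, 2 ^ i • g = 0 → g = 0 := by
  induction i with
  | zero => intro g hg; simpa using hg
  | succ i ih =>
    intro g hg
    rw [pow_succ, mul_smul] at hg
    exact h2 g (ih _ hg)

lemma big_pow {B : Set G} (hB : ∀ b ∈ B, ∃ b' ∈ B, 2 • b' = b) (i : ℕ) :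
    ∀ b ∈ B, ∃ b' ∈ B, 2 ^ i • b' = b := by
  induction i with
  | zero => intro b hb; exact ⟨b, hb, by simp⟩
  | succ i ih =>
    intro b hb
    obtain ⟨b1, h1, h2⟩ := ih b hb
    obtain ⟨b2, h3, h4⟩ := hB b1 h1
    exact ⟨b2, h3, by rw [pow_succ, mul_smul, h4, h2]⟩

/-- **odd index** -/
theorem odd_index {B : Set G} (hBN : ∀ b ∈ B, b ∈ N) (hB : ∀ b ∈ B, ∃ b' ∈ B, 2 • b' = b)
    (h2 : ∀ g : G, 2 • g = 0 → g = 0) {T : Type} [Finite T] (κ : G → Option T)
    (h0 : ∀ g, κ g = none → g ∈ B) (h1 : ∀ g g', κ g ≠ none → κ g = κ g' → g - g' ∈ B)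
    [hfi : N.FiniteIndex] : Odd N.index := by
  have key : ∀ g : G, ∃ m : ℕ, Odd m ∧ m • g ∈ N := by
    intro g
    by_cases hn : ∃ i : ℕ, κ (2 ^ i • g) = none
    · obtain ⟨i, hi⟩ := hn
      obtain ⟨b, hb, hbg⟩ := big_pow hB i _ (h0 _ hi)
      have h3 : 2 ^ i • (g - b) = 0 := by rw [nsmul_sub, hbg, sub_self]
      have h4 := sub_eq_zero.1 (inj_pow h2 i _ h3)
      exact ⟨1, odd_one, by rw [one_smul, h4]; exact hBN _ hb⟩
    · push Not at hn
      obtain ⟨i, j, hij, he⟩ := Finite.exists_ne_map_eq_of_infinite (fun i : ℕ => κ (2 ^ i • g))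
      have he : κ (2 ^ i • g) = κ (2 ^ j • g) := he
      wlog hlt : i < j generalizing i j with H
      · exact H j i hij.symm he.symm he.symm (lt_of_le_of_ne (not_lt.1 hlt) hij.symm)
      have h3 := h1 _ _ (hn j) he.symm
      obtain ⟨b, hb, hbg⟩ := big_pow hB i _ h3
      obtain ⟨d, rfl⟩ := Nat.exists_eq_add_of_lt hlt
      have hpos : 1 ≤ 2 ^ (d + 1) := Nat.one_le_two_pow
      have h4 : 2 ^ i • ((2 ^ (d + 1) - 1) • g - b) = 0 := by
        rw [nsmul_sub, hbg, ← mul_smul]
        have e : 2 ^ (i + d + 1) = 2 ^ i * (2 ^ (d + 1) - 1) + 2 ^ i := by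
          obtain ⟨t, ht⟩ : ∃ t, 2 ^ (d + 1) = t + 1 := ⟨2 ^ (d + 1) - 1, by omega⟩
          rw [ht, Nat.add_sub_cancel, add_assoc, pow_add, ht]
          ring
        rw [e, add_smul]
        abel
      have h5 := sub_eq_zero.1 (inj_pow h2 i _ h4)
      refine ⟨2 ^ (d + 1) - 1, ?_, by rw [h5]; exact hBN _ hb⟩
      rw [Nat.odd_sub hpos]
      simp [pow_succ]
  have hfin : Finite (G ⧸ N) := inferInstance
  have h3 : Odd (Nat.card (G ⧸ N)) := by
    refine odd_card_of fun a => ?_
    obtain ⟨g, rfl⟩ := QuotientAddGroup.mk_surjective a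
    obtain ⟨m, hm, hmg⟩ := key g
    refine ⟨m, hm, ?_⟩
    rw [← QuotientAddGroup.mk_nsmul]
    exact (QuotientAddGroup.eq_zero_iff _).2 hmg
  exact h3

end grp

section crv
variable {L : Type} [Field L] {Γ : Type} [LinearOrderedCommGroupWithZero Γ] (v : Valuation L Γ)

/-- the valuation ring is totally bounded -/
def TB : Prop := ∀ γ : Γ, γ ≠ 0 → ∃ (T : Type) (_ : Finite T) (f : L → T),
  ∀ a b, v a ≤ 1 → v b ≤ 1 → f a = f b → v (a - b) ≤ γ

variable {W : WeierstrassCurve L}

/-- the points that are not integral -/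
def Big (P : W.toAffine.Point) : Prop := ∀ x y h, P = Affine.Point.some x y h → 1 < v x

/-- the class of a point -/
noncomputable def cls {T : Type} (f : L → T) : W.toAffine.Point → Option (T × T)
  | .zero => none
  | .some x y _ => if v x ≤ 1 then some (f x, f y) else none

variable {v}

lemma big_zero : Big v (0 : W.toAffine.Point) := fun x y h e => by cases e

lemma big_some {x y : L} {h : W.toAffine.Nonsingular x y} :
    Big v (Affine.Point.some x y h : W.toAffine.Point) ↔ 1 < v x := by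
  constructor
  · intro hB
    exact hB x y h rfl
  · intro hx x' y' h' e
    cases e
    exact hx

lemma cls_none {T : Type} {f : L → T} {P : W.toAffine.Point} (h : cls v f P = none) : Big v P := by
  cases P with
  | zero => exact big_zero
  | some x y hP =>
    rw [big_some]
    by_contra hx
    rw [not_lt] at hx
    simp only [cls, if_pos hx] at h
    exact absurd h (by simp)

lemma cls_eq (hW : Itg v W) {T : Type} {f : L → T} {γ : Γ} (hγ : γ < v W.Δ)
    (hf : ∀ a b, v a ≤ 1 → v b ≤ 1 → f a = f b → v (a - b) ≤ γ) {P Q : W.toAffine.Point}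
    (h0 : cls v f P ≠ none) (h : cls v f P = cls v f Q) : Big v (P - Q) := by
  cases P with
  | zero => exact absurd rfl h0
  | some x y hP =>
    cases Q with
    | zero => exact absurd h h0
    | some x' y' hQ =>
      have hx : v x ≤ 1 := by
        by_contra hx
        exact h0 (if_neg hx)
      have e1 : cls v f (Affine.Point.some x y hP : W.toAffine.Point) = some (f x, f y) := if_pos hx
      have hx' : v x' ≤ 1 := by
        by_contra hx'
        have : cls v f (Affine.Point.some x' y' hQ : W.toAffine.Point) = none := if_neg hx'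
        rw [h, this] at h0
        exact h0 rfl
      have e2 : cls v f (Affine.Point.some x' y' hQ : W.toAffine.Point) = some (f x', f y') :=
        if_pos hx'
      rw [e1, e2] at h
      simp only [Option.some.injEq, Prod.mk.injEq] at h
      have k1 := hf x x' hx hx' h.1
      have k2 := hf y y' (y_int hW hP.1 hx) (y_int hW hQ.1 hx') h.2
      by_cases hne : x = x' ∧ y = y'
      · obtain ⟨rfl, rfl⟩ := hne
        rw [sub_self]
        exact big_zero
      · obtain ⟨X, Y, hXY, he, hX⟩ := sub_big hW hP hQ hx hx' hγ k1 k2 hne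
        rw [he]
        exact big_some.2 hX

lemma big_mem (hW : Itg v W) {P : W.toAffine.Point} (h : Big v P) : P ∈ ns v W := by
  apply AddSubgroup.subset_closure
  intro x y hP e
  exact ns_big hW hP.1 (h x y hP e)

/-- **finite index** -/
theorem finite_index (hTB : TB v) (hπ : ∃ γ : Γ, γ ≠ 0 ∧ γ < 1) (hW : Itg v W) (hD : W.Δ ≠ 0) :
    (ns v W).FiniteIndex := by
  obtain ⟨g, hg0, hg1⟩ := hπ
  have hvD : v W.Δ ≠ 0 := (Valuation.ne_zero_iff _).2 hD
  have hγ : g * v W.Δ < v W.Δ := by
    calc g * v W.Δ < 1 * v W.Δ := mul_lt_mul_of_pos_right hg1 (zero_lt_iff.2 hvD)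
      _ = v W.Δ := one_mul _
  obtain ⟨T, hT, f, hf⟩ := hTB (g * v W.Δ) (mul_ne_zero hg0 hvD)
  refine fi_of_map (ns v W) (cls v f) fun P Q h => ?_
  by_cases h0 : cls v f P = none
  · exact sub_mem (big_mem hW (cls_none h0)) (big_mem hW (cls_none (h ▸ h0)))
  · exact big_mem hW (cls_eq hW hγ hf h0 h)

end crv

end Pool.Agent.K7.H73.L3
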