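import Pool.Agent.Y682.Lcl
import Pool.Agent.W189.NF.LSer

/-!
# A quartic equation over the completions above three
-/

set_option autoImplicit false
set_option linter.unusedSectionVars false

open NumberField IsDedekindDomain

namespace Pool.Agent.K7.H73.L3

open Pool.Agent.Y682 (vv norm_le_iff)

section
variable {K : Type} [Field K] [NumberField K] (v : HeightOneSpectrum (𝓞 K))

lemma two_unit (h3 : vv v 3 < 1) : vv v 2 = 1 := by
  have h1 : (2 : v.adicCompletion K) = -1 + 3 := by norm_num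
  rw [h1, (vv v).map_add_eq_of_lt_left (by rw [Valuation.map_neg, map_one]; exact h3),
    Valuation.map_neg, map_one]

/-- the root of the quartic equation -/
theorem quartic {x D : v.adicCompletion K} (h3 : vv v 3 < 1) (hx : 1 < vv v x)
    (hD : vv v D ^ 2 = vv v x ^ 3) :
    ∃ l : v.adicCompletion K, l ^ 4 - 6 * x * l ^ 2 - D * l - 3 * x ^ 2 = 0 ∧
      vv v l ^ 2 < vv v x := by
  have hX0 : vv v x ≠ 0 := (zero_lt_one.trans hx).ne'
  have hDv0 : vv v D ≠ 0 := by
    intro h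
    rw [h] at hD
    exact pow_ne_zero 3 hX0 (by rw [← hD]; simp)
  have hD0 : D ≠ 0 := (Valuation.ne_zero_iff _).1 hDv0
  set c := -3 * x ^ 2 / D with hc
  set X := vv v x with hXd
  set Dv := vv v D with hDd
  set δ := vv v (3 : v.adicCompletion K) with hδ
  set C := vv v c with hC
  have hδ1 : δ ≤ 1 := h3.le
  have h6 : vv v (6 : v.adicCompletion K) ≤ δ := by
    have : (6 : v.adicCompletion K) = 2 * 3 := by norm_num
    rw [this, map_mul, two_unit v h3, one_mul]
  have k1 : C * Dv = δ * X ^ 2 := by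
    rw [hC, hc, map_div₀, div_mul_cancel₀ _ hDv0, map_mul, Valuation.map_neg, map_pow]
  have k2 : C * X = δ * Dv := by
    have : C * X * Dv = δ * Dv * Dv := by
      calc C * X * Dv = (C * Dv) * X := by ac_rfl
        _ = δ * X ^ 2 * X := by rw [k1]
        _ = δ * X ^ 3 := by (simp only [pow_succ, pow_zero, one_mul]; ac_rfl)
        _ = δ * Dv * Dv := by rw [← hD]; (simp only [pow_succ, pow_zero, one_mul]; ac_rfl)
    exact mul_right_cancel₀ hDv0 this
  have k3 : C ^ 2 = δ ^ 2 * X := by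
    have : C ^ 2 * Dv ^ 2 = δ ^ 2 * X * Dv ^ 2 := by
      calc C ^ 2 * Dv ^ 2 = (C * Dv) ^ 2 := by (simp only [pow_succ, pow_zero, one_mul]; ac_rfl)
        _ = δ ^ 2 * X * X ^ 3 := by rw [k1]; (simp only [pow_succ, pow_zero, one_mul]; ac_rfl)
        _ = δ ^ 2 * X * Dv ^ 2 := by rw [hD]
    exact mul_right_cancel₀ (pow_ne_zero 2 hDv0) this
  have k4 : C ^ 3 = δ ^ 3 * Dv := by
    calc C ^ 3 = C ^ 2 * C := by simp only [pow_succ, pow_zero, one_mul]
      _ = δ ^ 2 * (C * X) := by rw [k3]; (simp only [pow_succ, pow_zero, one_mul]; ac_rfl)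
      _ = δ ^ 3 * Dv := by rw [k2]; (simp only [pow_succ, pow_zero, one_mul]; ac_rfl)
  have hδ2 : δ ^ 2 ≤ δ := by
    calc δ ^ 2 = δ * δ := pow_two _
      _ ≤ 1 * δ := mul_le_mul' hδ1 le_rfl
      _ = δ := one_mul _
  have hδ3 : δ ^ 3 ≤ δ := by
    calc δ ^ 3 = δ ^ 2 * δ := by simp only [pow_succ, pow_zero, one_mul]
      _ ≤ 1 * δ := mul_le_mul' (hδ2.trans hδ1) le_rfl
      _ = δ := one_mul _
  let s : Set (v.adicCompletion K) := {y | ‖y‖ ≤ ‖c‖}
  have hs : IsComplete s := (isClosed_le continuous_norm continuous_const).isComplete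
  let T : v.adicCompletion K → v.adicCompletion K := fun y => c + (y ^ 4 - 6 * x * y ^ 2) / D
  have hmaps : Set.MapsTo T s s := by
    intro y hy
    have h1 : vv v y ≤ C := (norm_le_iff v _ _).1 hy
    change ‖T y‖ ≤ ‖c‖
    rw [norm_le_iff]
    refine (Valuation.map_add _ _ _).trans (max_le le_rfl ?_)
    rw [map_div₀]
    have h2 : vv v (y ^ 4 - 6 * x * y ^ 2) ≤ C * Dv := by
      refine (Valuation.map_sub _ _ _).trans (max_le ?_ ?_)
      · rw [map_pow]
        calc vv v y ^ 4 ≤ C ^ 4 := pow_le_pow_left₀ zero_le h1 4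
          _ = C * (δ ^ 3 * Dv) := by rw [← k4]; (simp only [pow_succ, pow_zero, one_mul]; ac_rfl)
          _ ≤ C * (1 * Dv) := mul_le_mul' le_rfl (mul_le_mul' (hδ3.trans hδ1) le_rfl)
          _ = C * Dv := by rw [one_mul]
      · rw [map_mul, map_mul, map_pow]
        calc vv v 6 * X * vv v y ^ 2 ≤ δ * X * C ^ 2 :=
              mul_le_mul' (mul_le_mul' h6 le_rfl) (pow_le_pow_left₀ zero_le h1 2)
          _ = C * (δ * (C * X)) := by (simp only [pow_succ, pow_zero, one_mul]; ac_rfl)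
          _ = C * (δ ^ 2 * Dv) := by rw [k2]; (simp only [pow_succ, pow_zero, one_mul]; ac_rfl)
          _ ≤ C * (1 * Dv) := mul_le_mul' le_rfl (mul_le_mul' (hδ2.trans hδ1) le_rfl)
          _ = C * Dv := by rw [one_mul]
    calc vv v (y ^ 4 - 6 * x * y ^ 2) / vv v D ≤ C * Dv / Dv := by
          rw [div_eq_mul_inv, div_eq_mul_inv]
          exact mul_le_mul' h2 le_rfl
      _ = C := mul_div_cancel_right₀ _ hDv0
  have hcn : ‖(3 : v.adicCompletion K)‖ < 1 := by
    rw [← norm_one (α := v.adicCompletion K), ← not_le, norm_le_iff, not_le, map_one]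
    exact h3
  have hcon : ContractingWith ⟨‖(3 : v.adicCompletion K)‖, norm_nonneg _⟩ (hmaps.restrict T s s) := by
    refine ⟨by exact_mod_cast hcn, ?_⟩
    apply LipschitzWith.of_dist_le_mul
    rintro ⟨y, hy⟩ ⟨t, ht⟩
    change dist (T y) (T t) ≤ ‖(3 : v.adicCompletion K)‖ * dist y t
    have h1 : vv v y ≤ C := (norm_le_iff v _ _).1 hy
    have h2 : vv v t ≤ C := (norm_le_iff v _ _).1 ht
    rw [dist_eq_norm, dist_eq_norm, ← norm_mul, norm_le_iff, map_mul]
    have h4 : T y - T t = ((y + t) * (y ^ 2 + t ^ 2) - 6 * x * (y + t)) / D * (y - t) := by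
      simp only [T]
      field_simp
      ring
    have h5 : vv v (y + t) ≤ C := (Valuation.map_add _ _ _).trans (max_le h1 h2)
    have h6' : vv v ((y + t) * (y ^ 2 + t ^ 2) - 6 * x * (y + t)) ≤ δ * Dv := by
      refine (Valuation.map_sub _ _ _).trans (max_le ?_ ?_)
      · rw [map_mul]
        have h7 : vv v (y ^ 2 + t ^ 2) ≤ C ^ 2 := by
          refine (Valuation.map_add _ _ _).trans (max_le ?_ ?_)
          · rw [map_pow]; exact pow_le_pow_left₀ zero_le h1 2
          · rw [map_pow]; exact pow_le_pow_left₀ zero_le h2 2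
        calc vv v (y + t) * vv v (y ^ 2 + t ^ 2) ≤ C * C ^ 2 := mul_le_mul' h5 h7
          _ = C ^ 3 := by (simp only [pow_succ, pow_zero, one_mul]; ac_rfl)
          _ = δ ^ 3 * Dv := k4
          _ ≤ δ * Dv := mul_le_mul' hδ3 le_rfl
      · rw [map_mul, map_mul]
        calc vv v 6 * X * vv v (y + t) ≤ δ * X * C := mul_le_mul' (mul_le_mul' h6 le_rfl) h5
          _ = δ * (C * X) := by ac_rfl
          _ = δ ^ 2 * Dv := by rw [k2]; (simp only [pow_succ, pow_zero, one_mul]; ac_rfl)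
          _ ≤ δ * Dv := mul_le_mul' hδ2 le_rfl
    rw [h4, map_mul, map_div₀]
    refine mul_le_mul' ?_ le_rfl
    calc vv v ((y + t) * (y ^ 2 + t ^ 2) - 6 * x * (y + t)) / vv v D ≤ δ * Dv / Dv := by
          rw [div_eq_mul_inv, div_eq_mul_inv]
          exact mul_le_mul' h6' le_rfl
      _ = δ := mul_div_cancel_right₀ _ hDv0
  have hcs : c ∈ s := le_refl ‖c‖
  obtain ⟨y, hys, hy, -⟩ := hcon.exists_fixedPoint' hs hmaps hcs (edist_ne_top _ _)
  have h2 : c + (y ^ 4 - 6 * x * y ^ 2) / D = y := hy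
  have h1 : vv v y ≤ C := (norm_le_iff v _ _).1 hys
  refine ⟨y, ?_, ?_⟩
  · have h4 : c * D = -3 * x ^ 2 := div_mul_cancel₀ _ hD0
    have h5 : (y ^ 4 - 6 * x * y ^ 2) / D * D = y ^ 4 - 6 * x * y ^ 2 := div_mul_cancel₀ _ hD0
    linear_combination D * h2 - h4 - h5
  · calc vv v y ^ 2 ≤ C ^ 2 := pow_le_pow_left₀ zero_le h1 2
      _ = δ ^ 2 * X := k3
      _ ≤ δ * X := mul_le_mul' hδ2 le_rfl
      _ < 1 * X := mul_lt_mul_of_pos_right h3 (zero_lt_iff.2 hX0)
      _ = X := one_mul _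

end

end Pool.Agent.K7.H73.L3
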