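import Pool.Agent.K7.H73.L3.B
import Pool.Agent.K7.H73.L3.C
import Pool.Agent.Y655.XT.Shavc
import Pool.Agent.Y696.Fld
import Pool.Agent.Y696.Loc

/-!
# The index above three is odd
-/

set_option autoImplicit false
set_option linter.unusedSectionVars false

open NumberField IsDedekindDomain WeierstrassCurve WithZero
open scoped Classical

namespace Pool.Agent.K7.H73.L3

open Pool.Agent.Y682 (vv norm_le_iff)
open Pool.Agent.Y700 (VR)
open Pool.Agent.Y655.XT (vr_of_smul)

section tb
variable {K : Type} [Field K] [NumberField K] (v : HeightOneSpectrum (𝓞 K))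

/-- the ring of integers of the completion is totally bounded -/
theorem tb : TB (Valued.v : Valuation (v.adicCompletion K) (WithZero (Multiplicative ℤ))) := by
  intro γ hγ
  have hfin : Finite (IsLocalRing.ResidueField (v.adicCompletionIntegers K)) :=
    Pool.Agent.W189.NF.finite_res v
  set R := v.adicCompletionIntegers K with hR
  set m := IsLocalRing.maximalIdeal R with hm
  obtain ⟨N, hN⟩ : ∃ N : ℕ, (exp (-1 : ℤ) : WithZero (Multiplicative ℤ)) ^ N ≤ γ := by
    obtain ⟨n, rfl⟩ := Pool.Agent.Y696.exp_rep hγ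
    refine ⟨(-n).toNat, ?_⟩
    rw [← exp_nsmul, exp_le_exp, nsmul_eq_mul]
    have := Int.self_le_toNat (-n)
    omega
  have hfg : m.FG := IsNoetherian.noetherian m
  have hq : Finite (R ⧸ m) := hfin
  have hQ : Finite (R ⧸ m ^ N) := Ideal.finite_quotient_pow hfg N
  refine ⟨R ⧸ m ^ N, hQ, fun a => if h : Valued.v a ≤ 1 then Ideal.Quotient.mk (m ^ N) ⟨a, h⟩ else 0,
    fun a b ha hb hab => ?_⟩
  have hab : (if h : Valued.v a ≤ 1 then Ideal.Quotient.mk (m ^ N) (⟨a, h⟩ : R) else 0) =
    (if h : Valued.v b ≤ 1 then Ideal.Quotient.mk (m ^ N) (⟨b, h⟩ : R) else 0) := hab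
  rw [dif_pos ha, dif_pos hb, Ideal.Quotient.eq] at hab
  obtain ⟨ϖ, hϖ⟩ := IsDiscreteValuationRing.exists_irreducible R
  have hmϖ : m = Ideal.span {ϖ} := (IsDiscreteValuationRing.irreducible_iff_uniformizer ϖ).1 hϖ
  rw [hmϖ, Ideal.span_singleton_pow, Ideal.mem_span_singleton] at hab
  obtain ⟨r, hr⟩ := hab
  have h1 : a - b = (ϖ : v.adicCompletion K) ^ N * (r : v.adicCompletion K) :=
    congrArg (fun t : R => (t : v.adicCompletion K)) hr
  have h2 : Valued.v (ϖ : v.adicCompletion K) < 1 := by
    refine (Pool.Agent.W189.NF.mem_max_iff v ϖ).1 ?_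
    have : ϖ ∈ m := by rw [hmϖ]; exact Ideal.mem_span_singleton_self _
    exact this
  rw [h1, map_mul, map_pow]
  calc _ ≤ (exp (-1 : ℤ) : WithZero (Multiplicative ℤ)) ^ N * 1 :=
        mul_le_mul' (pow_le_pow_left₀ zero_le (Pool.Agent.Y696.exp_lt h2) N) r.2
    _ ≤ γ := by rw [mul_one]; exact hN

end tb

section cv
variable {L : Type} [Field L]

/-- the curve `y² + b y = x³` -/
def Vb (b : L) : WeierstrassCurve L := ⟨0, 0, b, 0, 0⟩

lemma Vb_eq (b x y : L) : (Vb b).toAffine.Equation x y ↔ y ^ 2 + b * y = x ^ 3 := by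
  rw [Affine.equation_iff]
  simp only [Vb]
  constructor
  · intro h; linear_combination h
  · intro h; linear_combination h

lemma Vb_Δ (b : L) : (Vb b).Δ = -27 * b ^ 4 := by
  simp only [Vb, WeierstrassCurve.Δ, WeierstrassCurve.b₂, WeierstrassCurve.b₄,
    WeierstrassCurve.b₆, WeierstrassCurve.b₈]
  ring

lemma Vb_negY (b x y : L) : (Vb b).toAffine.negY x y = -y - b := by
  rw [Affine.negY]
  simp only [Vb]
  ring

/-- no points of order two -/
lemma no_two {b : L} (hb : ∀ x : L, 4 * x ^ 3 + b ^ 2 ≠ 0) (P : (Vb b).toAffine.Point)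
    (hP : 2 • P = 0) : P = 0 := by
  cases P with
  | zero => rfl
  | some x y h =>
    exfalso
    by_cases hy : y = (Vb b).toAffine.negY x y
    · rw [Vb_negY] at hy
      have h1 := (Vb_eq b x y).1 h.1
      apply hb x
      linear_combination (2 * y + b) * hy - 4 * h1
    · rw [two_nsmul, Affine.Point.add_self_of_Y_ne hy] at hP
      exact absurd hP (Affine.Point.some_ne_zero _)

end cv

section
variable {K : Type} [Field K] [NumberField K] (v : HeightOneSpectrum (𝓞 K))

/-- **halving** -/
theorem halve (h3 : vv v 3 < 1) {b : v.adicCompletion K} (hb : vv v b ≤ 1)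
    {P : (Vb b).toAffine.Point} (hP : Big (vv v) P) :
    ∃ Q : (Vb b).toAffine.Point, Big (vv v) Q ∧ 2 • Q = P := by
  cases P with
  | zero => exact ⟨0, big_zero, smul_zero _⟩
  | some x y h =>
    have hx : 1 < vv v x := big_some.1 hP
    have h1 := (Vb_eq b x y).1 h.1
    have hcz : CharZero (v.adicCompletion K) :=
      charZero_of_injective_algebraMap (algebraMap K (v.adicCompletion K)).injective
    have hv2 := two_unit v h3
    have hv4 : vv v 4 = 1 := by
      have : (4 : v.adicCompletion K) = 2 * 2 := by norm_num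
      rw [this, map_mul, hv2, one_mul]
    set D := 4 * (2 * y + b) with hD
    have hDx : vv v D ^ 2 = vv v x ^ 3 := by
      have e1 : (2 * y + b) ^ 2 = 4 * x ^ 3 + b ^ 2 := by linear_combination 4 * h1
      have e2 : vv v (b ^ 2) < vv v (4 * x ^ 3) := by
        rw [map_pow, map_mul, hv4, one_mul, map_pow]
        exact (pow_le_one₀ zero_le hb).trans_lt (one_lt_pow₀ hx (by norm_num))
      have e3 : vv v ((2 * y + b) ^ 2) = vv v x ^ 3 := by
        rw [e1, (vv v).map_add_eq_of_lt_left e2, map_mul, hv4, one_mul, map_pow]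
      rw [hD, map_mul, hv4, one_mul, ← map_pow, e3]
    obtain ⟨l, hl, hlx⟩ := quartic v h3 hx hDx
    set x2 := (l ^ 2 - x) / 2 with hx2
    set y2 := l * (x2 - x) - y - b with hy2
    have hl2 : l ^ 2 = 2 * x2 + x := by rw [hx2]; ring
    have hvx2 : vv v x2 = vv v x := by
      rw [hx2, map_div₀, hv2, div_one, (vv v).map_sub_eq_of_lt_right (by rw [map_pow]; exact hlx)]
    have hx20 : x2 ≠ 0 := by
      intro h0
      rw [h0, map_zero] at hvx2
      rw [← hvx2] at hx
      exact absurd hx (not_lt.2 zero_le)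
    have key : -x2 ^ 2 + x ^ 2 + l ^ 2 * x + l * (2 * y + b) = 0 := by
      rw [hx2]
      linear_combination (-1 / 4) * hl
    have heq : y2 ^ 2 + b * y2 = x2 ^ 3 := by
      rw [hy2]
      linear_combination h1 - (x2 - x) * key + (x2 - x) * x2 * hl2
    have htan : 3 * x2 ^ 2 = l * (2 * y2 + b) := by
      rw [hy2]
      linear_combination key + (x - 2 * x2) * hl2
    have hne : y2 ≠ (Vb b).toAffine.negY x2 y2 := by
      rw [Vb_negY]
      intro h0
      have h4 : 2 * y2 + b = 0 := by linear_combination h0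
      rw [h4, mul_zero] at htan
      have h5 : x2 ^ 2 = 0 := (mul_eq_zero.1 htan).resolve_left (by
        intro h0
        exact three_ne_zero h0)
      exact hx20 (pow_eq_zero_iff (two_ne_zero)|>.1 h5)
    have hΔ : (Vb b).toAffine.Nonsingular x2 y2 := by
      rw [Affine.nonsingular_iff]
      refine ⟨(Vb_eq b x2 y2).2 heq, Or.inr ?_⟩
      rw [Vb_negY] at hne
      simp only [Vb]
      intro h0
      apply hne
      linear_combination h0
    refine ⟨.some x2 y2 hΔ, big_some.2 (by rw [hvx2]; exact hx), ?_⟩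
    rw [two_nsmul, Affine.Point.add_self_of_Y_ne hne]
    have hsl : (Vb b).toAffine.slope x2 x2 y2 y2 = l := by
      rw [Affine.slope_of_Y_ne rfl hne, Vb_negY]
      have h6 : y2 - (-y2 - b) ≠ 0 := by
        intro h0
        apply hne
        rw [Vb_negY]
        linear_combination h0
      rw [div_eq_iff h6]
      simp only [Vb]
      linear_combination htan
    have hX : (Vb b).toAffine.addX x2 x2 ((Vb b).toAffine.slope x2 x2 y2 y2) = x := by
      rw [hsl, Affine.addX]
      simp only [Vb]
      linear_combination hl2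
    have hY : (Vb b).toAffine.addY x2 x2 y2 ((Vb b).toAffine.slope x2 x2 y2 y2) = y := by
      rw [Affine.addY, Affine.negAddY, hX, hsl, Vb_negY, hy2]
      ring
    exact Pool.Agent.Y655.XT.some_ext _ _ hX hY

end

end Pool.Agent.K7.H73.L3
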