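import Pool.Agent.K7.H73.L3.D

/-!
# The local indices of the equations of `y² + y = x³`
-/

set_option autoImplicit false
set_option linter.unusedSectionVars false

open NumberField IsDedekindDomain WeierstrassCurve WithZero
open scoped Classical

namespace Pool.Agent.K7.H73.L3

open Pool.Agent.Y682 (vv norm_le_iff)
open Pool.Agent.Y700 (VR)
open Pool.Agent.Y655.XT (vr_of_smul)
open Pool.Agent.Y696 (E0 E0_Δ E0_map)

section
variable {K : Type} [Field K] [NumberField K] (v : HeightOneSpectrum (𝓞 K))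

lemma exists_small : ∃ γ : WithZero (Multiplicative ℤ), γ ≠ 0 ∧ γ < 1 :=
  ⟨exp (-1 : ℤ), exp_ne_zero, by rw [← exp_zero, exp_lt_exp]; norm_num⟩

/-- **finite index** -/
theorem fin_idx {W : WeierstrassCurve (v.adicCompletion K)} (hW : Itg (vv v) W) (hD : W.Δ ≠ 0) :
    (ns (vv v) W).FiniteIndex := finite_index (tb v) exists_small hW hD

lemma exists_c (r u : v.adicCompletion K) : ∃ c : v.adicCompletion K, c ≠ 0 ∧ vv v c ≤ 1 ∧
    vv v c ^ 2 * vv v r ≤ 1 ∧ vv v c ^ 2 * vv v u ^ 2 ≤ 1 := by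
  have key : ∀ z : v.adicCompletion K, ∃ c : v.adicCompletion K, c ≠ 0 ∧ vv v c ≤ 1 ∧
      vv v c * vv v z ≤ 1 := by
    intro z
    by_cases hz : vv v z ≤ 1
    · exact ⟨1, one_ne_zero, by rw [map_one], by rw [map_one, one_mul]; exact hz⟩
    · rw [not_le] at hz
      have hz0 : vv v z ≠ 0 := (zero_lt_one.trans hz).ne'
      refine ⟨z⁻¹, inv_ne_zero ((Valuation.ne_zero_iff _).1 hz0), ?_, ?_⟩
      · rw [map_inv₀]
        exact inv_le_one_of_one_le₀ hz.le
      · rw [map_inv₀, inv_mul_cancel₀ hz0]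
  obtain ⟨c1, h10, h11, h12⟩ := key r
  obtain ⟨c2, h20, h21, h22⟩ := key u
  refine ⟨c1 * c2, mul_ne_zero h10 h20, ?_, ?_, ?_⟩
  · rw [map_mul]
    exact mul_le_one' h11 h21
  · rw [map_mul]
    calc (vv v c1 * vv v c2) ^ 2 * vv v r = (vv v c1 * vv v c2 ^ 2) * (vv v c1 * vv v r) := by
          simp only [pow_succ, pow_zero, one_mul]; ac_rfl
      _ ≤ 1 * 1 := mul_le_mul' (mul_le_one' h11 (pow_le_one₀ zero_le h21)) h12
      _ = 1 := one_mul _
  · rw [map_mul]
    calc (vv v c1 * vv v c2) ^ 2 * vv v u ^ 2 = vv v c1 ^ 2 * (vv v c2 * vv v u) ^ 2 := by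
          simp only [pow_succ, pow_zero, one_mul]; ac_rfl
      _ ≤ 1 * 1 := mul_le_mul' (pow_le_one₀ zero_le h11) (pow_le_one₀ zero_le h22)
      _ = 1 := one_mul _

/-- **odd index above three** -/
theorem odd_above (h3 : vv v 3 < 1) (h2 : ∀ z : v.adicCompletion K, z ^ 3 ≠ 2)
    {W : WeierstrassCurve (v.adicCompletion K)} (hW : Itg (vv v) W)
    {C : VariableChange (v.adicCompletion K)} (hC : C • E0 (v.adicCompletion K) = W) :
    Odd (ns (vv v) W).index := by
  have hcz : CharZero (v.adicCompletion K) :=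
    charZero_of_injective_algebraMap (algebraMap K (v.adicCompletion K)).injective
  have hE : (E0 (v.adicCompletion K)).Δ ≠ 0 := by
    rw [E0_Δ]
    norm_num
  have hVW := vr_of_smul hC
  set u : v.adicCompletion K := (C.u : v.adicCompletion K) with hu
  set r : v.adicCompletion K := C.r with hr
  have hu0 : u ≠ 0 := hVW.u0
  have hWD : W.Δ ≠ 0 := by
    intro h0
    apply hE
    rw [hVW.delta, h0, mul_zero]
  obtain ⟨c, hc0, hc1, hcr, hcu⟩ := exists_c v r u
  set b : v.adicCompletion K := c ^ 3 with hb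
  have hb1 : vv v b ≤ 1 := by
    rw [hb, map_pow]
    exact pow_le_one₀ zero_le hc1
  have hVV : VR (E0 (v.adicCompletion K)) (Vb b) c⁻¹ 0 0 0 := by
    refine ⟨inv_ne_zero hc0, ?_, ?_, ?_, ?_, ?_⟩
    · simp [E0, Vb]
    · simp [E0, Vb]
    · simp only [E0, Vb, hb]
      field_simp
      ring
    · simp [E0, Vb]
    · simp [E0, Vb]
  have hVD : (Vb b).Δ ≠ 0 := by
    rw [Vb_Δ]
    exact mul_ne_zero (by norm_num) (pow_ne_zero 4 (pow_ne_zero 3 hc0))
  have hVI : Itg (vv v) (Vb b) := ⟨by simp [Vb], by simp [Vb], hb1, by simp [Vb], by simp [Vb]⟩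
  set ψ : (Vb b).toAffine.Point ≃+ W.toAffine.Point :=
    (hVV.equiv hVD).trans (hVW.equiv hWD).symm with hψ
  set N : AddSubgroup (Vb b).toAffine.Point := (ns (vv v) W).comap (ψ : _ →+ _) with hN
  have hsurj : Function.Surjective (ψ : (Vb b).toAffine.Point →+ W.toAffine.Point) := ψ.surjective
  have hidx : N.index = (ns (vv v) W).index :=
    AddSubgroup.index_comap_of_surjective _ hsurj
  have hfi : (ns (vv v) W).FiniteIndex := fin_idx v hW hWD
  have hfiN : N.FiniteIndex := ⟨by rw [hidx]; exact hfi.index_ne_zero⟩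
  rw [← hidx]
  -- the big points
  have hbig : ∀ P : (Vb b).toAffine.Point, Big (vv v) P → Big (vv v) (ψ P) := by
    intro P hP X Y hXY he
    have h4 : hVW.equiv hWD (ψ P) = hVV.equiv hVD P := by
      rw [hψ, AddEquiv.trans_apply, AddEquiv.apply_symm_apply]
    rw [he, VR.equiv_apply, VR.equiv_apply, VR.fn_some] at h4
    cases P with
    | zero => exact absurd h4 (Affine.Point.some_ne_zero _)
    | some x y h =>
      have hx : 1 < vv v x := big_some.1 hP
      rw [VR.fn_some, Affine.Point.some.injEq] at h4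
      have h5 : u ^ 2 * X = c⁻¹ ^ 2 * x - r := by linear_combination h4.1
      have hvc : vv v c ≠ 0 := (Valuation.ne_zero_iff _).2 hc0
      have hvu : vv v u ≠ 0 := (Valuation.ne_zero_iff _).2 hu0
      have h6 : vv v (c⁻¹ ^ 2 * x) = (vv v c ^ 2)⁻¹ * vv v x := by
        rw [map_mul, map_pow, map_inv₀, inv_pow]
      have hpos : 0 < (vv v c ^ 2)⁻¹ := zero_lt_iff.2 (inv_ne_zero (pow_ne_zero 2 hvc))
      have h7 : (vv v c ^ 2)⁻¹ < vv v (c⁻¹ ^ 2 * x) := by
        rw [h6]
        calc (vv v c ^ 2)⁻¹ = (vv v c ^ 2)⁻¹ * 1 := (mul_one _).symm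
          _ < (vv v c ^ 2)⁻¹ * vv v x := mul_lt_mul_of_pos_left hx hpos
      have h8 : vv v r ≤ (vv v c ^ 2)⁻¹ := by
        calc vv v r = (vv v c ^ 2)⁻¹ * (vv v c ^ 2 * vv v r) := by
              rw [← mul_assoc, inv_mul_cancel₀ (pow_ne_zero 2 hvc), one_mul]
          _ ≤ (vv v c ^ 2)⁻¹ * 1 := mul_le_mul' le_rfl hcr
          _ = _ := mul_one _
      have h9 : vv v u ^ 2 ≤ (vv v c ^ 2)⁻¹ := by
        calc vv v u ^ 2 = (vv v c ^ 2)⁻¹ * (vv v c ^ 2 * vv v u ^ 2) := by
              rw [← mul_assoc, inv_mul_cancel₀ (pow_ne_zero 2 hvc), one_mul]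
          _ ≤ (vv v c ^ 2)⁻¹ * 1 := mul_le_mul' le_rfl hcu
          _ = _ := mul_one _
      have h10 : vv v (u ^ 2 * X) = vv v (c⁻¹ ^ 2 * x) := by
        rw [h5]
        exact (vv v).map_sub_eq_of_lt_left (h8.trans_lt h7)
      by_contra hX
      rw [not_lt] at hX
      have h11 : vv v (u ^ 2 * X) ≤ vv v u ^ 2 := by
        rw [map_mul, map_pow]
        calc vv v u ^ 2 * vv v X ≤ vv v u ^ 2 * 1 := mul_le_mul' le_rfl hX
          _ = _ := mul_one _
      rw [h10] at h11
      exact absurd (h11.trans h9) (not_le.2 h7)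
  -- the classes
  obtain ⟨g, hg0, hg1⟩ := exists_small
  have hvD : vv v (Vb b).Δ ≠ 0 := (Valuation.ne_zero_iff _).2 hVD
  have hγ : g * vv v (Vb b).Δ < vv v (Vb b).Δ := by
    calc g * vv v (Vb b).Δ < 1 * vv v (Vb b).Δ := mul_lt_mul_of_pos_right hg1 (zero_lt_iff.2 hvD)
      _ = _ := one_mul _
  obtain ⟨T, hT, f, hf⟩ := tb v (g * vv v (Vb b).Δ) (mul_ne_zero hg0 hvD)
  refine odd_index N (B := {P | Big (vv v) P}) (fun P hP => ?_) (fun P hP => halve v h3 hb1 hP)
    (no_two fun x hx => ?_) (cls (vv v) f) (fun P hP => cls_none hP)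
    (fun P Q h0 h => cls_eq hVI hγ hf h0 h)
  · exact big_mem hW (hbig P hP)
  · apply h2 (-2 * x / c ^ 2)
    rw [hb] at hx
    field_simp
    linear_combination -hx

/-- the coefficients of an integral equation -/
lemma itg_of {W : WeierstrassCurve (v.adicCompletion K)}
    (h : WeierstrassCurve.IsIntegral (v.adicCompletionIntegers K) W) : Itg (vv v) W := by
  obtain ⟨W0, rfl⟩ := h.integral
  exact ⟨W0.a₁.2, W0.a₂.2, W0.a₃.2, W0.a₄.2, W0.a₆.2⟩

/-- **minimal equations away from three** -/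
theorem minimal_away (h3 : (3 : 𝓞 K) ∉ v.asIdeal) {W : WeierstrassCurve (v.adicCompletion K)}
    {C : VariableChange (v.adicCompletion K)} (hC : C • E0 (v.adicCompletion K) = W)
    (hm : WeierstrassCurve.IsMinimal (v.adicCompletionIntegers K) W) :
    Valued.v (C.u : v.adicCompletion K) = 1 ∧ (ns (vv v) W).index = 1 := by
  set R := v.adicCompletionIntegers K with hR
  have v3 : Valued.v (3 : v.adicCompletion K) = 1 := by
    have e1 : (3 : v.adicCompletion K) = ((algebraMap (𝓞 K) K 3 : K) : v.adicCompletion K) := by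
      rw [map_ofNat]
      exact (map_ofNat (algebraMap K (v.adicCompletion K)) 3).symm
    rw [e1, v.valuedAdicCompletion_eq_valuation', v.valuation_of_algebraMap]
    exact le_antisymm (v.intValuation_le_one _)
      (not_lt.1 fun hlt => h3 ((v.intValuation_lt_one_iff_mem _).1 hlt))
  have hunit : IsUnit (27 : R) := by
    rw [HeightOneSpectrum.adicCompletionIntegers.isUnit_iff_valued_eq_one]
    have : (((27 : R) : R) : v.adicCompletion K) = 3 ^ 3 := by
      change algebraMap R (v.adicCompletion K) 27 = 3 ^ 3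
      rw [map_ofNat]
      norm_num
    rw [this, map_pow, v3, one_pow]
  have hEI : WeierstrassCurve.IsIntegral R (E0 (v.adicCompletion K)) := by
    refine ⟨⟨E0 R, ?_⟩⟩
    exact (E0_map _).symm
  have h1 := hm.val_Δ_maximal
  have e1 : C⁻¹ • W = E0 (v.adicCompletion K) := by rw [← hC, inv_smul_smul]
  have hint : WeierstrassCurve.IsIntegral R (C⁻¹ • W) := by rw [e1]; exact hEI
  have hWI : WeierstrassCurve.IsIntegral R W := inferInstance
  have hEΔ : IsDedekindDomain.HeightOneSpectrum.valuation (v.adicCompletion K)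
      (IsDiscreteValuationRing.maximalIdeal R) (E0 (v.adicCompletion K)).Δ = 1 := by
    rw [E0_Δ]
    have h5 : (-27 : v.adicCompletion K) = algebraMap R (v.adicCompletion K) (-27) := by
      rw [map_neg, map_ofNat]
    rw [h5]
    exact Pool.Agent.Y696.val_unit R hunit.neg
  have v1 : ((WeierstrassCurve.valuation_Δ_aux R W).1 : WithZero (Multiplicative ℤ)) =
      IsDedekindDomain.HeightOneSpectrum.valuation (v.adicCompletion K)
        (IsDiscreteValuationRing.maximalIdeal R) W.Δ :=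
    WeierstrassCurve.valuation_Δ_aux_eq_of_isIntegral R _
  have v2 : ((WeierstrassCurve.valuation_Δ_aux R (E0 (v.adicCompletion K))).1 :
      WithZero (Multiplicative ℤ)) = 1 :=
    (WeierstrassCurve.valuation_Δ_aux_eq_of_isIntegral R _).trans hEΔ
  have h2 := h1.2 (j := C⁻¹) hint
  simp only [one_smul, e1] at h2
  have h4 : WeierstrassCurve.valuation_Δ_aux R W ≤
      WeierstrassCurve.valuation_Δ_aux R (E0 (v.adicCompletion K)) := by
    rw [← Subtype.coe_le_coe, v2]
    exact (WeierstrassCurve.valuation_Δ_aux R W).2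
  have h5 := h2 h4
  rw [← Subtype.coe_le_coe, v2, v1] at h5
  obtain ⟨d, hd⟩ := WeierstrassCurve.Δ_integral_of_isIntegral R W
  have hdu : IsUnit d := by
    by_contra hnu
    have hmem : d ∈ IsLocalRing.maximalIdeal R := (IsLocalRing.mem_maximalIdeal _).2 hnu
    have hlt : IsDedekindDomain.HeightOneSpectrum.valuation (v.adicCompletion K)
        (IsDiscreteValuationRing.maximalIdeal R) (algebraMap R (v.adicCompletion K) d) < 1 :=
      (IsDedekindDomain.HeightOneSpectrum.valuation_lt_one_iff_mem (K := v.adicCompletion K)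
        (IsDiscreteValuationRing.maximalIdeal R) d).2 hmem
    rw [hd] at hlt
    exact absurd hlt (not_lt.2 h5)
  have hWv : Valued.v W.Δ = 1 := by
    rw [← hd]
    exact HeightOneSpectrum.adicCompletionIntegers.isUnit_iff_valued_eq_one.1 hdu
  have hVW := vr_of_smul hC
  constructor
  · have h6 := congrArg Valued.v hVW.delta
    rw [E0_Δ, map_mul, map_pow, hWv, mul_one] at h6
    have h7 : Valued.v (-27 : v.adicCompletion K) = 1 := by
      have : (-27 : v.adicCompletion K) = -(3 ^ 3) := by norm_num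
      rw [this, Valuation.map_neg, map_pow, v3, one_pow]
    rw [h7] at h6
    exact (pow_eq_one_iff_of_nonneg zero_le (by norm_num)).1 h6.symm
  · have hI := itg_of v hWI
    have htop : ns (vv v) W = ⊤ := by
      rw [eq_top_iff]
      intro P _
      apply AddSubgroup.subset_closure
      intro x y hP _
      by_cases hx : vv v x ≤ 1
      · have h8 := disc_le hI hP.1 hx (y_int hI hP.1 hx)
        rw [show vv v W.Δ = 1 from hWv, le_max_iff] at h8
        exact h8
      · exact ns_big hI hP.1 (not_le.1 hx)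
    rw [htop, AddSubgroup.index_top]

end

end Pool.Agent.K7.H73.L3
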