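import Pool.Agent.K7.H73.L3.E
import Pool.Agent.K7.H70.SM.C
import Pool.Agent.Y696.Stm

/-!
# The local terms of the formula for the equations of `y² + y = x³`
-/

set_option autoImplicit false
set_option linter.unusedSectionVars false

open NumberField IsDedekindDomain WeierstrassCurve WithZero
open scoped Classical

namespace Pool.Agent.K7.H73.L3

open Pool.Agent.Y682 (vv norm_le_iff exists_approx)
open Pool.Agent.Y696 (E0 E0_Δ E0_map E27)
open Pool.Agent.K7.H70.SM (NG)

section
variable {k : Type} [Field k] [NumberField k]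

lemma vv_alg (v : HeightOneSpectrum (𝓞 k)) (x : k) :
    vv v (algebraMap k (v.adicCompletion k) x) = v.valuation k x :=
  Pool.Agent.Y682.vv_coe v x

lemma vv_three {v : HeightOneSpectrum (𝓞 k)} (h3 : (3 : 𝓞 k) ∈ v.asIdeal) : vv v 3 < 1 := by
  have e : (3 : v.adicCompletion k) = algebraMap k (v.adicCompletion k) (algebraMap (𝓞 k) k 3) := by
    rw [map_ofNat, map_ofNat]
  rw [e, vv_alg, HeightOneSpectrum.valuation_of_algebraMap]
  exact (v.intValuation_lt_one_iff_mem _).2 h3

/-- two is not a cube in the completions above three -/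
theorem no_cube (h : NG k) {v : HeightOneSpectrum (𝓞 k)} (h3 : (3 : 𝓞 k) ∈ v.asIdeal)
    (z : v.adicCompletion k) : z ^ 3 ≠ 2 := by
  intro hz
  have hv3 := vv_three h3
  have hv2 := two_unit v hv3
  have hcz : CharZero (v.adicCompletion k) :=
    charZero_of_injective_algebraMap (algebraMap k (v.adicCompletion k)).injective
  have h30 : vv v (3 : v.adicCompletion k) ≠ 0 := (Valuation.ne_zero_iff _).2 three_ne_zero
  have hz1 : vv v z = 1 := by
    have h1 := congrArg (vv v) hz
    rw [map_pow, hv2] at h1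
    exact (pow_eq_one_iff_of_nonneg zero_le (by norm_num)).1 h1
  set ξ := -z / 2 with hξ
  have hξ1 : vv v ξ = 1 := by
    rw [hξ, map_div₀, Valuation.map_neg, hz1, hv2, div_one]
  have hξ3 : 1 + 4 * ξ ^ 3 = 0 := by
    rw [hξ]
    field_simp
    linear_combination -4 * hz
  obtain ⟨r, hr⟩ := exists_approx v ξ (vv v (3 : v.adicCompletion k) ^ 2) (pow_ne_zero 2 h30)
  set ρ := algebraMap k (v.adicCompletion k) r with hρ
  have h31 : vv v (3 : v.adicCompletion k) ^ 2 ≤ 1 := pow_le_one₀ zero_le hv3.le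
  have hρ1 : vv v ρ ≤ 1 := by
    have : ρ = (ρ - ξ) + ξ := by ring
    rw [this]
    exact add_le' (hr.le.trans h31) hξ1.le
  have h4 : (1 + 4 * ρ ^ 3 : v.adicCompletion k) = 4 * ((ρ ^ 2 + ρ * ξ + ξ ^ 2) * (ρ - ξ)) := by
    linear_combination hξ3
  have hv4 : vv v (4 : v.adicCompletion k) ≤ 1 := by
    have : (4 : v.adicCompletion k) = 2 * 2 := by norm_num
    rw [this, map_mul, hv2, one_mul]
  have h5 : vv v (1 + 4 * ρ ^ 3) ≤ vv v (3 : v.adicCompletion k) ^ 2 := by
    rw [h4]
    refine mul_le' hv4 (mul_le' (add_le' (add_le' ?_ ?_) ?_) hr.le)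
    · rw [map_pow]; exact pow_le_one₀ zero_le hρ1
    · exact mul_le' hρ1 hξ1.le
    · rw [map_pow]; exact pow_le_one₀ zero_le hξ1.le
  have h6 := h v h3 r
  have e1 : v.valuation k 3 = vv v (3 : v.adicCompletion k) := by
    rw [← vv_alg, map_ofNat]
  have e2 : v.valuation k (1 + 4 * r ^ 3) = vv v (1 + 4 * ρ ^ 3) := by
    rw [← vv_alg, map_add, map_mul, map_pow, map_one, map_ofNat]
  rw [e1, e2] at h6
  have h7 : vv v (1 + 4 * ρ ^ 3) ^ 2 ≤ vv v (3 : v.adicCompletion k) ^ 3 := by
    calc vv v (1 + 4 * ρ ^ 3) ^ 2 ≤ (vv v (3 : v.adicCompletion k) ^ 2) ^ 2 :=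
          pow_le_pow_left₀ zero_le h5 2
      _ = vv v (3 : v.adicCompletion k) ^ 3 * vv v (3 : v.adicCompletion k) := by
          simp only [pow_succ, pow_zero, one_mul]; ac_rfl
      _ ≤ vv v (3 : v.adicCompletion k) ^ 3 * 1 := mul_le_mul' le_rfl hv3.le
      _ = _ := mul_one _
  exact absurd h6 (not_lt.2 h7)

variable {C : (v : HeightOneSpectrum (𝓞 k)) → VariableChange (v.adicCompletion k)}

/-- **all the local indices are odd** -/
theorem c_odd (h : NG k) (v : HeightOneSpectrum (𝓞 k))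
    (hC : WeierstrassCurve.IsMinimal (v.adicCompletionIntegers k)
      (C v • (E27 k).baseChange (v.adicCompletion k))) :
    Odd (ns (vv v) (C v • (E27 k).baseChange (v.adicCompletion k))).index := by
  have e : (E27 k).baseChange (v.adicCompletion k) = E0 (v.adicCompletion k) := E0_map _
  rw [e] at hC ⊢
  by_cases h3 : (3 : 𝓞 k) ∈ v.asIdeal
  · exact odd_above v (vv_three h3) (no_cube h h3) (itg_of v inferInstance) rfl
  · rw [(minimal_away v h3 rfl hC).2]
    exact odd_one

/-- away from three -/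
theorem c_away {v : HeightOneSpectrum (𝓞 k)} (h3 : (3 : 𝓞 k) ∉ v.asIdeal)
    (hC : WeierstrassCurve.IsMinimal (v.adicCompletionIntegers k)
      (C v • (E27 k).baseChange (v.adicCompletion k))) :
    Valued.v ((C v).u : v.adicCompletion k) = 1 ∧
      (ns (vv v) (C v • (E27 k).baseChange (v.adicCompletion k))).index = 1 := by
  have e : (E27 k).baseChange (v.adicCompletion k) = E0 (v.adicCompletion k) := E0_map _
  rw [e] at hC ⊢
  exact minimal_away v h3 rfl hC

/-- **the product of the local indices is odd** -/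
theorem tam_odd (h : NG k) (hC : ∀ v, WeierstrassCurve.IsMinimal (v.adicCompletionIntegers k)
      (C v • (E27 k).baseChange (v.adicCompletion k))) :
    Odd (∏ᶠ v : HeightOneSpectrum (𝓞 k),
      (ns (vv v) (C v • (E27 k).baseChange (v.adicCompletion k))).index) :=
  finprod_induction (fun n : ℕ => Odd n) odd_one (fun _ _ ha hb => ha.mul hb)
    fun v => c_odd h v (hC v)

/-- the norm of a prime above three is a power of three -/
lemma norm_three {v : HeightOneSpectrum (𝓞 k)} (h3 : (3 : 𝓞 k) ∈ v.asIdeal) :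
    ∃ n : ℕ, Ideal.absNorm v.asIdeal = 3 ^ n := by
  have h1 : Ideal.absNorm v.asIdeal ∣ Ideal.absNorm (Ideal.span {(3 : 𝓞 k)}) :=
    Ideal.absNorm_dvd_absNorm_of_le ((Ideal.span_singleton_le_iff_mem _).2 h3)
  rw [Ideal.absNorm_span_singleton] at h1
  have h2 : Algebra.norm ℤ (3 : 𝓞 k) = 3 ^ Module.finrank ℤ (𝓞 k) := by
    have : (3 : 𝓞 k) = algebraMap ℤ (𝓞 k) 3 := by rw [map_ofNat]
    rw [this, Algebra.norm_algebraMap]
  rw [h2, Int.natAbs_pow] at h1
  obtain ⟨n, -, hn⟩ := (Nat.dvd_prime_pow Nat.prime_three).1 h1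
  exact ⟨n, hn⟩

/-- **the correction of the differential is a power of three** -/
theorem minf_pow (hC : ∀ v, WeierstrassCurve.IsMinimal (v.adicCompletionIntegers k)
      (C v • (E27 k).baseChange (v.adicCompletion k))) :
    ∃ j : ℤ, ∏ᶠ v : HeightOneSpectrum (𝓞 k), (Ideal.absNorm v.asIdeal : ℝ) ^
      (-(WithZero.log (Valued.v ((C v).u : v.adicCompletion k)))) = 3 ^ j := by
  refine finprod_induction (fun x : ℝ => ∃ j : ℤ, x = 3 ^ j) ⟨0, by simp⟩ ?_ fun v => ?_
  · rintro _ _ ⟨i, rfl⟩ ⟨j, rfl⟩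
    exact ⟨i + j, by rw [zpow_add₀ (by norm_num)]⟩
  · by_cases h3 : (3 : 𝓞 k) ∈ v.asIdeal
    · obtain ⟨n, hn⟩ := norm_three h3
      refine ⟨(n : ℤ) * (-(WithZero.log (Valued.v ((C v).u : v.adicCompletion k)))), ?_⟩
      rw [hn, zpow_mul, zpow_natCast]
      push_cast
      rfl
    · refine ⟨0, ?_⟩
      rw [(c_away h3 (hC v)).1, WithZero.log_one]
      simp

/-- the finiteness of the product -/
theorem minf_fin (hC : ∀ v, WeierstrassCurve.IsMinimal (v.adicCompletionIntegers k)
      (C v • (E27 k).baseChange (v.adicCompletion k))) :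
    (Function.mulSupport fun v : HeightOneSpectrum (𝓞 k) => (Ideal.absNorm v.asIdeal : ℝ) ^
      (-(WithZero.log (Valued.v ((C v).u : v.adicCompletion k))))).Finite := by
  have h0 : Ideal.span {(3 : 𝓞 k)} ≠ ⊥ := by
    rw [Ne, Ideal.span_singleton_eq_bot]
    exact_mod_cast (by norm_num : (3 : ℕ) ≠ 0)
  refine (Ideal.finite_factors h0).subset ?_
  intro v hv
  rw [Set.mem_ofPred_eq, Ideal.dvd_span_singleton]
  by_contra h3
  apply hv
  show (Ideal.absNorm v.asIdeal : ℝ) ^
      (-(WithZero.log (Valued.v ((C v).u : v.adicCompletion k)))) = 1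
  rw [(c_away h3 (hC v)).1, WithZero.log_one]
  simp

/-- the existence of minimal equations -/
theorem exists_C (k : Type) [Field k] [NumberField k] :
    ∃ C : (v : HeightOneSpectrum (𝓞 k)) → VariableChange (v.adicCompletion k),
      ∀ v, WeierstrassCurve.IsMinimal (v.adicCompletionIntegers k)
        (C v • (E27 k).baseChange (v.adicCompletion k)) := by
  choose C hC using fun v : HeightOneSpectrum (𝓞 k) =>
    WeierstrassCurve.exists_isMinimal (v.adicCompletionIntegers k)
      ((E27 k).baseChange (v.adicCompletion k))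
  exact ⟨C, hC⟩

end

end Pool.Agent.K7.H73.L3
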