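import Pool.Agent.K7.H73.L3.F
import Pool.Agent.K7.H73.NM.G

/-!
# The condition at three goes up quadratic extensions
-/

set_option autoImplicit false
set_option linter.unusedSectionVars false

namespace Pool.Agent.K7.H73.L3

open IsDedekindDomain NumberField WithZero
open Pool.Agent.K7.H73.NM (cop1)
open Pool.Agent.K7.H70.SM (NG)

section val
variable {K : Type} [Field K] (V : Valuation K ℤᵐ⁰)

lemma sq_add {x y : K} {c : ℤᵐ⁰} (hx : V x ^ 2 ≤ c) (hy : V y ^ 2 ≤ c) : V (x + y) ^ 2 ≤ c := by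
  rcases le_total (V x) (V y) with h | h
  · exact (pow_le_pow_left₀ zero_le (V.map_add_le h le_rfl) 2).trans hy
  · exact (pow_le_pow_left₀ zero_le (V.map_add_le le_rfl h) 2).trans hx

lemma v_two' (h3 : V 3 < 1) : V 2 = 1 := by
  have e : (2 : K) = 3 + (-1) := by norm_num
  rw [e, Valuation.map_add_eq_of_lt_right V (by rw [Valuation.map_neg, map_one]; exact h3),
    Valuation.map_neg, map_one]

lemma v_four' (h3 : V 3 < 1) : V 4 = 1 := by
  have e : (4 : K) = 2 * 2 := by norm_num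
  rw [e, map_mul, v_two' V h3, one_mul]

lemma c_lt (h3 : V 3 < 1) {r : K} (hr : V (1 + 4 * r ^ 3) ^ 2 ≤ V 3 ^ 3) :
    V (1 + 4 * r ^ 3) < 1 := by
  by_contra hcon
  push Not at hcon
  have h1 : (1 : ℤᵐ⁰) ≤ V (1 + 4 * r ^ 3) ^ 2 := one_le_pow₀ hcon
  have h2 : V 3 ^ 3 < 1 := pow_lt_one₀ zero_le h3 (by norm_num)
  exact absurd (h1.trans hr) (not_le.2 h2)

lemma r_one (h3 : V 3 < 1) {r : K} (hr : V (1 + 4 * r ^ 3) < 1) : V r = 1 := by
  have e : 4 * r ^ 3 = (1 + 4 * r ^ 3) + (-1) := by ring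
  have h1 : V (4 * r ^ 3) = 1 := by
    rw [e, Valuation.map_add_eq_of_lt_right V (by rw [Valuation.map_neg, map_one]; exact hr),
      Valuation.map_neg, map_one]
  rw [map_mul, v_four' V h3, one_mul, map_pow] at h1
  rcases lt_trichotomy (V r) 1 with h | h | h
  · exact absurd h1 (pow_lt_one₀ zero_le h (by norm_num)).ne
  · exact h
  · exact absurd h1 (one_lt_pow₀ h (by norm_num)).ne'

/-- the mean of two solutions is a solution -/
theorem mean (h20 : (2 : K) ≠ 0) (h3 : V 3 < 1) {r r' : K}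
    (hr : V (1 + 4 * r ^ 3) ^ 2 ≤ V 3 ^ 3)
    (hr' : V (1 + 4 * r' ^ 3) ^ 2 ≤ V 3 ^ 3) : V (1 + 4 * ((r + r') / 2) ^ 3) ^ 2 ≤ V 3 ^ 3 := by
  have hr1 := r_one V h3 (c_lt V h3 hr)
  have hr1' := r_one V h3 (c_lt V h3 hr')
  have h2 := v_two' V h3
  have h4 := v_four' V h3
  set s : K := (r - r') / 2 with hs
  set m : K := (r + r') / 2 with hm
  have hrs : r = m + s := by rw [hs, hm]; field_simp; ring
  have hrs' : r' = m - s := by rw [hs, hm]; field_simp; ring
  have hs1 : V s ≤ 1 := by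
    rw [hs, map_div₀, h2, div_one]
    exact Valuation.map_sub_le _ hr1.le hr1'.le
  have hm1 : V m ≤ 1 := by
    rw [hm, map_div₀, h2, div_one]
    exact Valuation.map_add_le _ hr1.le hr1'.le
  -- the difference
  have hd : (V s * V (3 * m ^ 2 + s ^ 2)) ^ 2 ≤ V 3 ^ 3 := by
    have e : (1 + 4 * r ^ 3) + (-(1 + 4 * r' ^ 3)) = 2 * 4 * (s * (3 * m ^ 2 + s ^ 2)) := by
      rw [hrs, hrs']
      ring
    have h5 : V ((1 + 4 * r ^ 3) + (-(1 + 4 * r' ^ 3))) ^ 2 ≤ V 3 ^ 3 :=
      sq_add V hr (by rw [Valuation.map_neg]; exact hr')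
    rw [e, map_mul, map_mul, h2, h4, one_mul, one_mul, map_mul] at h5
    exact h5
  have hs2 : V s ^ 2 ≤ V 3 := by
    by_contra hcon
    push Not at hcon
    have h5 : V (3 * m ^ 2) < V (s ^ 2) := by
      rw [map_mul, map_pow, map_pow]
      refine lt_of_le_of_lt ?_ hcon
      exact mul_le_of_le_one_right' (pow_le_one' hm1 2)
    rw [Valuation.map_add_eq_of_lt_right V h5, map_pow] at hd
    have h6 : (V s * V s ^ 2) ^ 2 = (V s ^ 2) ^ 3 := by
      rw [← pow_succ', ← pow_mul, ← pow_mul]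
    rw [h6] at hd
    exact absurd hcon (not_lt.2 ((pow_le_pow_iff_left₀ zero_le zero_le (by norm_num)).1 hd))
  have e : 1 + 4 * m ^ 3 = (1 + 4 * r ^ 3) + (3 * s * (-(4 * r ^ 2))) +
      (3 * s * (4 * r * s)) + (-(4 * s ^ 3)) := by
    rw [hrs]
    ring
  have h3s : ∀ x : K, V x ≤ 1 → V (3 * s * x) ^ 2 ≤ V 3 ^ 3 := by
    intro x hx
    calc V (3 * s * x) ^ 2 = V 3 ^ 2 * V s ^ 2 * V x ^ 2 := by
          rw [map_mul, map_mul, mul_pow, mul_pow]
      _ ≤ V 3 ^ 2 * V 3 * 1 := by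
          gcongr
          exact pow_le_one' hx 2
      _ = V 3 ^ 3 := by rw [mul_one, ← pow_succ]
  rw [e]
  refine sq_add V (sq_add V (sq_add V hr (h3s _ ?_)) (h3s _ ?_)) ?_
  · rw [Valuation.map_neg, map_mul, map_pow, h4, hr1, one_pow, one_mul]
  · rw [map_mul, map_mul, h4, hr1, one_mul, one_mul]
    exact hs1
  · rw [Valuation.map_neg, map_mul, map_pow, h4, one_mul]
    calc (V s ^ 3) ^ 2 = (V s ^ 2) ^ 3 := by rw [← pow_mul, ← pow_mul]
      _ ≤ V 3 ^ 3 := by gcongr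

/-- the condition is open -/
lemma near (h3 : V 3 < 1) {r t : K} (hr : V (1 + 4 * r ^ 3) ^ 2 ≤ V 3 ^ 3)
    (ht : V (r - t) ^ 2 ≤ V 3 ^ 3) : V (1 + 4 * t ^ 3) ^ 2 ≤ V 3 ^ 3 := by
  have hr1 := r_one V h3 (c_lt V h3 hr)
  have h4 := v_four' V h3
  have hrt : V (r - t) ≤ 1 := by
    by_contra hcon
    push Not at hcon
    have h1 : (1 : ℤᵐ⁰) < V (r - t) ^ 2 := one_lt_pow₀ hcon (by norm_num)
    have h2 : V 3 ^ 3 ≤ 1 := pow_le_one' h3.le 3
    exact absurd (h1.trans_le (ht.trans h2)) (lt_irrefl _)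
  have ht1 : V t ≤ 1 := by
    have e : t = r - (r - t) := by ring
    rw [e]
    exact Valuation.map_sub_le _ hr1.le hrt
  have e : 1 + 4 * t ^ 3 = (1 + 4 * r ^ 3) + (r - t) * (-(4 * (r ^ 2 + r * t + t ^ 2))) := by ring
  rw [e]
  refine sq_add V hr ?_
  have h5 : V (-(4 * (r ^ 2 + r * t + t ^ 2))) ≤ 1 := by
    rw [Valuation.map_neg, map_mul, h4, one_mul]
    refine Valuation.map_add_le _ (Valuation.map_add_le _ ?_ ?_) ?_
    · rw [map_pow]; exact pow_le_one' hr1.le 2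
    · rw [map_mul]; exact mul_le_one' hr1.le ht1
    · rw [map_pow]; exact pow_le_one' ht1 2
  rw [map_mul, mul_pow]
  calc V (r - t) ^ 2 * V (-(4 * (r ^ 2 + r * t + t ^ 2))) ^ 2 ≤ V 3 ^ 3 * 1 := by
        gcongr
        exact pow_le_one' h5 2
    _ = _ := mul_one _

end val

section dens
variable {F A : Type} [Field F] [NumberField F] [Field A] [NumberField A] [Algebra F A]

/-- density of the fixed field at a prime not fixed by the involution -/
theorem dens2 (τ : A ≃+* A) (hτ2 : ∀ x, τ (τ x) = x)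
    (hfix : ∀ x, τ x = x → ∃ f : F, algebraMap F A f = x)
    {P P' : HeightOneSpectrum (𝓞 A)} (h1 : P ≠ P')
    (hP' : ∀ x, P.valuation A (τ x) = P'.valuation A x) (y : 𝓞 A) (n : ℕ) :
    ∃ f : F, P.valuation A ((y : A) - algebraMap F A f) ≤ exp (-(n : ℤ)) := by
  obtain ⟨i, j, hij, hi, hj⟩ := cop1 h1 n
  have hfx : τ (((y * j : 𝓞 A) : A) + τ ((y * j : 𝓞 A) : A)) =
      ((y * j : 𝓞 A) : A) + τ ((y * j : 𝓞 A) : A) := by
    rw [map_add, hτ2, add_comm]
  obtain ⟨f, hf⟩ := hfix _ hfx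
  refine ⟨f, ?_⟩
  rw [hf]
  have hij' : (i : A) + (j : A) = 1 := by
    have h6 := congrArg (fun z : 𝓞 A => (z : A)) hij
    simpa using h6
  have e : (y : A) - (((y * j : 𝓞 A) : A) + τ ((y * j : 𝓞 A) : A)) =
      ((y * i : 𝓞 A) : A) - τ ((y * j : 𝓞 A) : A) := by
    simp only [map_mul]
    linear_combination (-(y : A)) * hij'
  rw [e]
  refine Valuation.map_sub_le _ ?_ ?_
  · rw [← Pool.Agent.K7.H73.NM.val_le_pow]
    exact Ideal.mul_mem_left _ _ hi
  · rw [hP', ← Pool.Agent.K7.H73.NM.val_le_pow]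
    exact Ideal.mul_mem_left _ _ hj

end dens

section up
variable {K M : Type} [Field K] [NumberField K] [Field M] [NumberField M] [Algebra K M]

/-- the condition on elements of the small field -/
lemma ng_base (h : NG K) (w : HeightOneSpectrum (𝓞 M)) (hw : (3 : 𝓞 M) ∈ w.asIdeal) (r : K) :
    ¬ w.valuation M (1 + 4 * (algebraMap K M r) ^ 3) ^ 2 ≤ w.valuation M 3 ^ 3 := by
  intro h3
  let v : HeightOneSpectrum (𝓞 K) := ⟨w.asIdeal.under (𝓞 K), inferInstance, by
    intro h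
    exact w.ne_bot (Ideal.eq_bot_of_comap_eq_bot h)⟩
  have hlo : w.asIdeal.LiesOver v.asIdeal := ⟨rfl⟩
  have h3v : (3 : 𝓞 K) ∈ v.asIdeal := (Pool.Agent.Y696.three_below hlo).2 hw
  have h4 := HeightOneSpectrum.valuation_liesOver M v w (3 : K)
  have h5 := HeightOneSpectrum.valuation_liesOver M v w (1 + 4 * r ^ 3)
  rw [map_ofNat (algebraMap K M)] at h4
  have e : algebraMap K M (1 + 4 * r ^ 3) = 1 + 4 * algebraMap K M r ^ 3 := by
    rw [map_add, map_one, map_mul, map_ofNat, map_pow]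
  rw [e] at h5
  rw [← h4, ← h5] at h3
  have h6 := h v h3v r
  have hram : v.asIdeal.ramificationIdx' w.asIdeal ≠ 0 := by
    intro h0
    have h7 := HeightOneSpectrum.valuation_liesOver M v w (3 : K)
    rw [map_ofNat (algebraMap K M), h0, pow_zero] at h7
    have h8 := (w.valuation_lt_one_iff_mem (K := M) (3 : 𝓞 M)).2 hw
    have e8 : algebraMap (𝓞 M) M (3 : 𝓞 M) = 3 := map_ofNat _ 3
    change w.valuation M (algebraMap (𝓞 M) M (3 : 𝓞 M)) < 1 at h8
    rw [e8, ← h7] at h8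
    exact lt_irrefl _ h8
  have h7 := pow_lt_pow_left₀ h6 zero_le hram
  rw [← pow_mul, ← pow_mul] at h3 h7
  rw [mul_comm 3, mul_comm 2] at h7
  exact absurd h7 (not_lt.2 h3)

/-- **the condition at three goes up quadratic extensions** -/
theorem ng_up (h2 : Module.finrank K M = 2) (h : NG K) : NG M := by
  intro w hw r
  by_contra hcon
  push Not at hcon
  have h3 : w.valuation M 3 < 1 := by
    have h1 := (w.valuation_lt_one_iff_mem (K := M) (3 : 𝓞 M)).2 hw
    have e : algebraMap (𝓞 M) M (3 : 𝓞 M) = 3 := map_ofNat _ 3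
    rw [← e]
    exact h1
  have hfd : FiniteDimensional K M := Module.finite_of_finrank_pos (by rw [h2]; norm_num)
  have hq : Algebra.IsQuadraticExtension K M := ⟨h2⟩
  have hg : IsGalois K M := inferInstance
  have hcard : Nat.card (M ≃ₐ[K] M) = 2 := by rw [IsGalois.card_aut_eq_finrank, h2]
  have hfin : Finite (M ≃ₐ[K] M) := Nat.finite_of_card_ne_zero (by rw [hcard]; norm_num)
  have hnt : Nontrivial (M ≃ₐ[K] M) := Finite.one_lt_card_iff_nontrivial.1 (by
    rw [hcard]; norm_num)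
  obtain ⟨σ, hσ⟩ := exists_ne (1 : M ≃ₐ[K] M)
  have hall : ∀ g : M ≃ₐ[K] M, g = 1 ∨ g = σ := by
    intro g
    by_contra hc
    push Not at hc
    have h5 : Nat.card (M ≃ₐ[K] M) ≥ 3 := by
      have hF : Fintype (M ≃ₐ[K] M) := Fintype.ofFinite _
      rw [Nat.card_eq_fintype_card]
      classical
      calc 3 = ({1, σ, g} : Finset (M ≃ₐ[K] M)).card := by
            rw [Finset.card_insert_of_notMem, Finset.card_pair (Ne.symm hc.2)]
            simp only [Finset.mem_insert, Finset.mem_singleton, not_or]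
            exact ⟨hσ.symm, hc.1.symm⟩
        _ ≤ _ := Finset.card_le_univ _
    omega
  have hσ2 : ∀ x, σ (σ x) = x := by
    intro x
    rcases hall (σ * σ) with h5 | h5
    · have := congrArg (fun g : M ≃ₐ[K] M => g x) h5
      simpa using this
    · exact absurd (mul_left_cancel (h5.trans (mul_one σ).symm)) hσ
  have hfix : ∀ x, σ x = x → ∃ f : K, algebraMap K M f = x := by
    intro x hx
    have h5 := (IsGalois.mem_bot_iff_fixed (F := K) x).2 (fun g => by
      rcases hall g with rfl | rfl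
      · rfl
      · exact hx)
    exact IntermediateField.mem_bot.1 h5
  obtain ⟨w', hw'⟩ := Pool.Agent.Y696.val_aut (σ : M ≃+* M) w
  by_cases hww : w = w'
  · -- the prime is fixed
    subst hww
    have hr' : w.valuation M (1 + 4 * (σ r) ^ 3) ^ 2 ≤ w.valuation M 3 ^ 3 := by
      have e : 1 + 4 * (σ r) ^ 3 = σ (1 + 4 * r ^ 3) := by
        rw [map_add, map_one, map_mul, map_ofNat, map_pow]
      rw [e]
      have h6 := hw' (1 + 4 * r ^ 3)
      change w.valuation M (σ (1 + 4 * r ^ 3)) = _ at h6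
      rw [h6]
      exact hcon
    have h7 := mean (w.valuation M) (by norm_num) h3 hcon hr'
    obtain ⟨f, hf⟩ := hfix ((r + σ r) / 2) (by
      rw [map_div₀, map_add, hσ2, map_ofNat, add_comm])
    rw [← hf] at h7
    exact ng_base h w hw f h7
  · -- the prime is moved
    have hr1 := r_one _ h3 (c_lt _ h3 hcon)
    have hc0 : w.valuation M 3 ≠ 0 := (Valuation.ne_zero_iff _).2 (by norm_num)
    obtain ⟨n, hn⟩ : ∃ n : ℕ, exp (-(n : ℤ)) ≤ w.valuation M 3 ^ 2 := by
      have h6 : w.valuation M 3 ^ 2 = exp (log (w.valuation M 3 ^ 2)) :=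
        (exp_log (pow_ne_zero 2 hc0)).symm
      refine ⟨(-(log (w.valuation M 3 ^ 2))).toNat, ?_⟩
      rw [h6, log_exp, exp_le_exp]
      have := Int.self_le_toNat (-(log (w.valuation M 3 ^ 2)))
      omega
    have hn0 : (exp (-(n : ℤ)) : ℤᵐ⁰) ≠ 0 := exp_ne_zero
    obtain ⟨a, ha⟩ := w.exists_valuation_sub_lt_of_integer (K := M) (x := r) hr1.le
      (Units.mk0 _ hn0)
    rw [Units.val_mk0] at ha
    obtain ⟨f, hf⟩ := dens2 (F := K) (σ : M ≃+* M) hσ2 hfix hww hw' a n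
    have h7 : w.valuation M (r - algebraMap K M f) ≤ w.valuation M 3 ^ 2 := by
      have e : r - algebraMap K M f = ((a : M) - algebraMap K M f) - ((a : M) - r) := by ring
      rw [e]
      exact Valuation.map_sub_le _ (hf.trans hn) (ha.le.trans hn)
    have h8 : w.valuation M (r - algebraMap K M f) ^ 2 ≤ w.valuation M 3 ^ 3 := by
      calc _ ≤ (w.valuation M 3 ^ 2) ^ 2 := by gcongr
        _ = w.valuation M 3 ^ 3 * w.valuation M 3 := by rw [← pow_mul, ← pow_succ]
        _ ≤ w.valuation M 3 ^ 3 * 1 := by gcongr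
        _ = _ := mul_one _
    exact ng_base h w hw f (near _ h3 hcon h8)

end up

end Pool.Agent.K7.H73.L3
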